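import Mathlib
import Pool.Agent.N753.DR.Stm2
import Pool.Agent.N262.DR.Box
import Pool.Agent.N147.DR.Typ
import Pool.Agent.N340.DR.Comb

/-!
# CV/SMALLB, part 1: local counts
-/

set_option autoImplicit false

namespace Pool.Agent.H65CV.Small

open NumberField IsDedekindDomain Module Polynomial Pool.Agent.N753.DR Pool.Agent.N262.DR Finset
open Pool.Agent.N147.DR

section primes

variable {L : Type} [Field L] [NumberField L]

lemma norm_pp {p : ℕ} (hp : p.Prime) {w : HeightOneSpectrum (𝓞 L)} (h : (p : 𝓞 L) ∈ w.asIdeal) :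
    ∃ j, 1 ≤ j ∧ j ≤ finrank ℚ L ∧ Ideal.absNorm w.asIdeal = p ^ j := by
  have h1 : Ideal.span {(p : 𝓞 L)} ≤ w.asIdeal := by
    rwa [Ideal.span_singleton_le_iff_mem]
  have h2 := Ideal.absNorm_dvd_absNorm_of_le h1
  rw [Ideal.absNorm_span_natCast, RingOfIntegers.rank] at h2
  obtain ⟨j, hj, he⟩ := (Nat.dvd_prime_pow hp).1 h2
  refine ⟨j, ?_, hj, he⟩
  by_contra hc
  have h0 : j = 0 := by omega
  subst h0
  have h3 := two_le_norm w
  rw [he, pow_zero] at h3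
  omega

lemma card_above {p : ℕ} (hp : p.Prime) (F : Finset (HeightOneSpectrum (𝓞 L)))
    (h : ∀ w ∈ F, (p : 𝓞 L) ∈ w.asIdeal) : F.card ≤ finrank ℚ L := by
  classical
  have h1 : ∏ v ∈ F, v.asIdeal ∣ Ideal.span {((p : ℕ) : 𝓞 L)} := by
    have h2 : ∏ v ∈ F, v.asIdeal = ∏ I ∈ F.image (fun v => v.asIdeal), I := by
      rw [Finset.prod_image]
      intro u _ v _ huv
      exact HeightOneSpectrum.ext huv
    rw [h2]
    refine Finset.prod_primes_dvd _ ?_ ?_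
    · intro I hI
      obtain ⟨v, _, rfl⟩ := Finset.mem_image.1 hI
      exact v.prime
    · intro I hI
      obtain ⟨v, hv, rfl⟩ := Finset.mem_image.1 hI
      rw [Ideal.dvd_span_singleton]
      exact h v hv
  have h3 := Ideal.absNorm_dvd_absNorm_of_le (Ideal.le_of_dvd h1)
  rw [Ideal.absNorm_span_natCast, map_prod, RingOfIntegers.rank] at h3
  have h4 : p ^ F.card ∣ ∏ v ∈ F, Ideal.absNorm v.asIdeal := by
    rw [← Finset.prod_const]
    refine Finset.prod_dvd_prod_of_dvd _ _ fun v hv => ?_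
    obtain ⟨j, hj, -, he⟩ := norm_pp hp (h v hv)
    rw [he]
    exact dvd_pow_self p (by omega)
  exact (Nat.pow_dvd_pow_iff_le_right hp.one_lt).1 (h4.trans h3)

lemma above_fin {p : ℕ} (hp : p.Prime) :
    {w : HeightOneSpectrum (𝓞 L) | (p : 𝓞 L) ∈ w.asIdeal}.Finite := by
  by_contra hinf
  obtain ⟨t, ht, hc⟩ := Set.Infinite.exists_subset_card_eq hinf (finrank ℚ L + 1)
  have := card_above hp t fun w hw => ht hw
  omega

end primes

variable {K L : Type} [Field K] [NumberField K] [Field L] [NumberField L] [Algebra K L]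

/-- the condition at the prime `p` with the exponent `k` -/
def Zc (Bad : Finset (HeightOneSpectrum (𝓞 K))) {m : ℕ} (β : Fin m → 𝓞 L) (c : Fin m → 𝓞 K)
    (p k : ℕ) : Prop :=
  ∃ v ∉ Bad, ∃ w w' : HeightOneSpectrum (𝓞 L), w.asIdeal.LiesOver v.asIdeal ∧
    w'.asIdeal.LiesOver v.asIdeal ∧ (p : 𝓞 L) ∈ w.asIdeal ∧
    (evB K β c ∈ w.asIdeal ^ k ∨ (k = 2 ∧ evB K β c ∈ w.asIdeal ∧ evB K β c ∈ w'.asIdeal ∧
      (Ideal.absNorm v.asIdeal < Ideal.absNorm w.asIdeal ∨ w' ≠ w)))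

/-- the shift -/
def sh {m : ℕ} (i0 i1 : Fin m) (z : ℕ × ℕ) : Fin m → 𝓞 K :=
  Pi.single i0 (z.1 : 𝓞 K) + Pi.single i1 (z.2 : 𝓞 K)


lemma evB_single {m : ℕ} (β : Fin m → 𝓞 L) (j : Fin m) (c : 𝓞 K) :
    evB K β (Pi.single j c) = algebraMap (𝓞 K) (𝓞 L) c * β j := by
  show ∑ i : Fin m, algebraMap (𝓞 K) (𝓞 L) ((Pi.single j c : Fin m → 𝓞 K) i) * β i = _
  rw [Finset.sum_eq_single j]
  · rw [Pi.single_eq_same]
  · intro i _ hi
    rw [Pi.single_eq_of_ne hi, map_zero, zero_mul]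
  · intro h; exact absurd (Finset.mem_univ _) h

lemma evB_sh {m : ℕ} (β : Fin m → 𝓞 L) (i0 i1 : Fin m) (Q : Fin m → 𝓞 K) (z : ℕ × ℕ) :
    evB K β (Q + sh i0 i1 z) = evB K β Q + ((z.1 : 𝓞 L) * β i0 + (z.2 : 𝓞 L) * β i1) := by
  unfold sh
  rw [map_add, map_add, evB_single, evB_single, map_natCast, map_natCast]

/-- the properties of good primes which are used -/
structure Good (Bad : Finset (HeightOneSpectrum (𝓞 K))) {m : ℕ} (β : Fin m → 𝓞 L)
    (i0 i1 : Fin m) : Prop where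
  nm : ∀ v ∉ Bad, ∀ w : HeightOneSpectrum (𝓞 L), w.asIdeal.LiesOver v.asIdeal → β i0 ∉ w.asIdeal
  un : ∀ v ∉ Bad, ∀ w : HeightOneSpectrum (𝓞 L), w.asIdeal.LiesOver v.asIdeal → ∀ (e : ℕ) (c : 𝓞 K),
      algebraMap (𝓞 K) (𝓞 L) c ∈ w.asIdeal ^ e → c ∈ v.asIdeal ^ e
  uq : ∀ v ∉ Bad, ∀ p : ℕ, p.Prime → (p : 𝓞 K) ∈ v.asIdeal → ∀ (e : ℕ) (m : ℤ),
      (m : 𝓞 K) ∈ v.asIdeal ^ e → (p : ℤ) ^ e ∣ m
  ind : ∀ v ∉ Bad, ∀ w : HeightOneSpectrum (𝓞 L), w.asIdeal.LiesOver v.asIdeal → ∀ c0 c1 : 𝓞 K,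
      algebraMap (𝓞 K) (𝓞 L) c0 * β i0 + algebraMap (𝓞 K) (𝓞 L) c1 * β i1 ∈ w.asIdeal →
      (Ideal.absNorm v.asIdeal < Ideal.absNorm w.asIdeal ∨
        ∃ w' : HeightOneSpectrum (𝓞 L), w'.asIdeal.LiesOver v.asIdeal ∧ w' ≠ w ∧
          algebraMap (𝓞 K) (𝓞 L) c0 * β i0 + algebraMap (𝓞 K) (𝓞 L) c1 * β i1 ∈ w'.asIdeal) →
      c0 ∈ v.asIdeal ∧ c1 ∈ v.asIdeal

lemma mem_below {p : ℕ} {v : HeightOneSpectrum (𝓞 K)} {w : HeightOneSpectrum (𝓞 L)}
    (h : w.asIdeal.LiesOver v.asIdeal) : (p : 𝓞 L) ∈ w.asIdeal ↔ (p : 𝓞 K) ∈ v.asIdeal := by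
  rw [← under_mem h, map_natCast]

/-- at most `p ^ k` shifts have a value divisible by `w ^ k` -/
lemma countA {Bad : Finset (HeightOneSpectrum (𝓞 K))} {m : ℕ} {β : Fin m → 𝓞 L} {i0 i1 : Fin m}
    (hG : Good Bad β i0 i1) {p k : ℕ} (hp : p.Prime) (Q : Fin m → 𝓞 K)
    (w : HeightOneSpectrum (𝓞 L)) (T : Finset (ℕ × ℕ))
    (hT : ∀ z ∈ T, z.1 < p ^ k ∧ z.2 < p ^ k ∧ ∃ v ∉ Bad, w.asIdeal.LiesOver v.asIdeal ∧
      (p : 𝓞 L) ∈ w.asIdeal ∧ evB K β (Q + sh i0 i1 z) ∈ w.asIdeal ^ k) : T.card ≤ p ^ k := by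
  have h1 : T.card ≤ (range (p ^ k)).card := by
    refine Finset.card_le_card_of_injOn Prod.snd ?_ ?_
    · intro z hz
      rw [mem_coe, mem_range]
      exact (hT z (mem_coe.1 hz)).2.1
    · rintro ⟨a, b⟩ hz ⟨a', b'⟩ hz' hb
      obtain ⟨h1, -, v, hv, hwv, hpw, h2⟩ := hT _ (mem_coe.1 hz)
      obtain ⟨h1', -, -, -, -, -, h2'⟩ := hT _ (mem_coe.1 hz')
      simp only at hb h1 h1'
      subst hb
      rw [evB_sh] at h2 h2'
      simp only at h2 h2'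
      have h3 := (w.asIdeal ^ k).sub_mem h2 h2'
      have e1 : evB K β Q + ((a : 𝓞 L) * β i0 + (b : 𝓞 L) * β i1) -
          (evB K β Q + ((a' : 𝓞 L) * β i0 + (b : 𝓞 L) * β i1)) =
          β i0 * (((a : ℤ) - a' : ℤ) : 𝓞 L) := by
        push_cast
        ring
      rw [e1] at h3
      have hwp : w.asIdeal.IsPrime := w.isPrime
      have h4 := (Ideal.IsPrime.mul_mem_pow w.asIdeal h3).resolve_left (hG.nm v hv w hwv)
      have h5 : algebraMap (𝓞 K) (𝓞 L) (((a : ℤ) - a' : ℤ) : 𝓞 K) ∈ w.asIdeal ^ k := by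
        rwa [map_intCast]
      have h6 := hG.uq v hv p hp ((mem_below hwv).1 hpw) k _ (hG.un v hv w hwv k _ h5)
      have h7 : ((a : ℤ) - a') = 0 := by
        refine Int.eq_zero_of_abs_lt_dvd h6 ?_
        rw [abs_lt]
        have ha : (a : ℤ) < (p : ℤ) ^ k := by exact_mod_cast h1
        have ha' : (a' : ℤ) < (p : ℤ) ^ k := by exact_mod_cast h1'
        constructor <;> omega
      have h8 : a = a' := by omega
      rw [h8]
  rwa [card_range] at h1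

/-- at most `p ^ 2` shifts of size less than `p ^ 2` have a value divisible by `w` and `w'` -/
lemma countT {Bad : Finset (HeightOneSpectrum (𝓞 K))} {m : ℕ} {β : Fin m → 𝓞 L} {i0 i1 : Fin m}
    (hG : Good Bad β i0 i1) {p : ℕ} (hp : p.Prime) (Q : Fin m → 𝓞 K)
    (w w' : HeightOneSpectrum (𝓞 L)) (T : Finset (ℕ × ℕ))
    (hT : ∀ z ∈ T, z.1 < p ^ 2 ∧ z.2 < p ^ 2 ∧ ∃ v ∉ Bad, w.asIdeal.LiesOver v.asIdeal ∧
      w'.asIdeal.LiesOver v.asIdeal ∧ (p : 𝓞 L) ∈ w.asIdeal ∧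
      evB K β (Q + sh i0 i1 z) ∈ w.asIdeal ∧ evB K β (Q + sh i0 i1 z) ∈ w'.asIdeal ∧
      (Ideal.absNorm v.asIdeal < Ideal.absNorm w.asIdeal ∨ w' ≠ w)) : T.card ≤ p ^ 2 := by
  have hp0 : 0 < p := hp.pos
  have h1 : T.card ≤ (range p ×ˢ range p).card := by
    refine Finset.card_le_card_of_injOn (fun z => (z.1 / p, z.2 / p)) ?_ ?_
    · intro z hz
      obtain ⟨h1, h2, -⟩ := hT z (mem_coe.1 hz)
      rw [mem_coe, mem_product, mem_range, mem_range]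
      rw [sq] at h1 h2
      exact ⟨Nat.div_lt_of_lt_mul h1, Nat.div_lt_of_lt_mul h2⟩
    · rintro ⟨a, b⟩ hz ⟨a', b'⟩ hz' hb
      obtain ⟨-, -, v, hv, hwv, hwv', hpw, h2, h3, h4⟩ := hT _ (mem_coe.1 hz)
      obtain ⟨-, -, -, -, -, -, -, h2', h3', -⟩ := hT _ (mem_coe.1 hz')
      simp only [Prod.mk.injEq] at hb
      rw [evB_sh] at h2 h2' h3 h3'
      simp only at h2 h2' h3 h3'
      have e1 : evB K β Q + ((a : 𝓞 L) * β i0 + (b : 𝓞 L) * β i1) -
          (evB K β Q + ((a' : 𝓞 L) * β i0 + (b' : 𝓞 L) * β i1)) =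
          algebraMap (𝓞 K) (𝓞 L) (((a : ℤ) - a' : ℤ) : 𝓞 K) * β i0 +
          algebraMap (𝓞 K) (𝓞 L) (((b : ℤ) - b' : ℤ) : 𝓞 K) * β i1 := by
        rw [map_intCast, map_intCast]
        push_cast
        ring
      have h5 := w.asIdeal.sub_mem h2 h2'
      have h6 := w'.asIdeal.sub_mem h3 h3'
      rw [e1] at h5 h6
      have h7 := hG.ind v hv w hwv _ _ h5 (h4.imp_right fun hne => ⟨w', hwv', hne, h6⟩)
      have hpv := (mem_below hwv).1 hpw
      have h8 := hG.uq v hv p hp hpv 1 _ (by rw [pow_one]; exact h7.1)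
      have h9 := hG.uq v hv p hp hpv 1 _ (by rw [pow_one]; exact h7.2)
      rw [pow_one] at h8 h9
      have key : ∀ x y : ℕ, x / p = y / p → (p : ℤ) ∣ (x : ℤ) - y → x = y := by
        intro x y hxy hd
        have h10 : y % p = x % p := by
          have := (Nat.modEq_iff_dvd (n := p) (a := y) (b := x)).2 hd
          exact this
        rw [← Nat.div_add_mod x p, ← Nat.div_add_mod y p, hxy, h10]
      rw [key a a' hb.1 h8, key b b' hb.2 h9]
  rw [card_product, card_range] at h1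
  rw [sq]
  exact h1

open scoped Classical in
/-- the local count -/
lemma local_count {Bad : Finset (HeightOneSpectrum (𝓞 K))} {m : ℕ} {β : Fin m → 𝓞 L}
    {i0 i1 : Fin m} (hG : Good Bad β i0 i1) {p k : ℕ} (hp : p.Prime) (Q : Fin m → 𝓞 K) :
    ((range (p ^ k) ×ˢ range (p ^ k)).filter fun z => Zc Bad β (Q + sh i0 i1 z) p k).card ≤
      2 * finrank ℚ L ^ 2 * p ^ k := by
  have hfin := above_fin (L := L) hp
  set P := hfin.toFinset with hP
  have hPc : P.card ≤ finrank ℚ L := card_above hp P fun w hw => by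
    rw [hP, Set.Finite.mem_toFinset] at hw
    exact hw
  set R := range (p ^ k) ×ˢ range (p ^ k) with hR
  set A : HeightOneSpectrum (𝓞 L) → Finset (ℕ × ℕ) := fun w => R.filter fun z =>
    ∃ v ∉ Bad, w.asIdeal.LiesOver v.asIdeal ∧ (p : 𝓞 L) ∈ w.asIdeal ∧
      evB K β (Q + sh i0 i1 z) ∈ w.asIdeal ^ k with hA
  set T : HeightOneSpectrum (𝓞 L) × HeightOneSpectrum (𝓞 L) → Finset (ℕ × ℕ) := fun u =>
    R.filter fun z => k = 2 ∧ ∃ v ∉ Bad, u.1.asIdeal.LiesOver v.asIdeal ∧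
      u.2.asIdeal.LiesOver v.asIdeal ∧ (p : 𝓞 L) ∈ u.1.asIdeal ∧
      evB K β (Q + sh i0 i1 z) ∈ u.1.asIdeal ∧ evB K β (Q + sh i0 i1 z) ∈ u.2.asIdeal ∧
      (Ideal.absNorm v.asIdeal < Ideal.absNorm u.1.asIdeal ∨ u.2 ≠ u.1) with hTd
  have hAc : ∀ w, (A w).card ≤ p ^ k := fun w => countA hG hp Q w _ fun z hz => by
    rw [hA] at hz
    simp only [hR, mem_filter, mem_product, mem_range] at hz
    exact ⟨hz.1.1, hz.1.2, hz.2⟩
  have hTc : ∀ u, (T u).card ≤ p ^ k := fun u => by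
    by_cases hk : k = 2
    · subst hk
      refine countT hG hp Q u.1 u.2 _ fun z hz => ?_
      rw [hTd] at hz
      simp only [hR, mem_filter, mem_product, mem_range] at hz
      exact ⟨hz.1.1, hz.1.2, hz.2.2⟩
    · have : T u = ∅ := by
        rw [hTd]
        simp only
        rw [Finset.filter_eq_empty_iff]
        intro z _ h
        exact hk h.1
      rw [this, card_empty]
      exact Nat.zero_le _
  have hsub : (R.filter fun z => Zc Bad β (Q + sh i0 i1 z) p k) ⊆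
      (P ×ˢ P).biUnion fun u => A u.1 ∪ T u := by
    intro z hz
    rw [mem_filter] at hz
    obtain ⟨hzR, v, hv, w, w', hw, hw', hpw, h⟩ := hz
    have hpv := (mem_below hw).1 hpw
    have hpw' := (mem_below hw').2 hpv
    rw [mem_biUnion]
    refine ⟨(w, w'), ?_, ?_⟩
    · rw [mem_product, hP, Set.Finite.mem_toFinset, Set.Finite.mem_toFinset]
      exact ⟨hpw, hpw'⟩
    · rw [mem_union]
      rcases h with h | ⟨hk, h1, h2, h3⟩
      · left
        rw [hA]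
        simp only [mem_filter]
        exact ⟨hzR, v, hv, hw, hpw, h⟩
      · right
        rw [hTd]
        simp only [mem_filter]
        exact ⟨hzR, hk, v, hv, hw, hw', hpw, h1, h2, h3⟩
  calc (R.filter fun z => Zc Bad β (Q + sh i0 i1 z) p k).card
      ≤ ((P ×ˢ P).biUnion fun u => A u.1 ∪ T u).card := card_le_card hsub
    _ ≤ ∑ u ∈ P ×ˢ P, (A u.1 ∪ T u).card := card_biUnion_le
    _ ≤ ∑ _u ∈ P ×ˢ P, 2 * p ^ k := by
        refine Finset.sum_le_sum fun u _ => (card_union_le _ _).trans ?_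
        have := hAc u.1
        have := hTc u
        omega
    _ = P.card * P.card * (2 * p ^ k) := by
        rw [sum_const, card_product, smul_eq_mul]
    _ ≤ finrank ℚ L * finrank ℚ L * (2 * p ^ k) :=
        Nat.mul_le_mul_right _ (Nat.mul_le_mul hPc hPc)
    _ = _ := by ring

end Pool.Agent.H65CV.Small
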