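import Mathlib
import Pool.Agent.H65CV.Loc
import Pool.Agent.N394.CV.TypB

/-!
# CV/SMALLB: the part of small primes with double zeros is rarely large
-/

set_option autoImplicit false

namespace Pool.Agent.H65CV.Small

open NumberField IsDedekindDomain Module Polynomial Pool.Agent.N753.DR Pool.Agent.N262.DR Finset
open Pool.Agent.N147.DR Pool.Agent.N340.DR

variable {K L : Type} [Field K] [NumberField K] [Field L] [NumberField L] [Algebra K L]

/-- the condition depends only on the shift modulo `p ^ k` -/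
lemma Zc_mod {Bad : Finset (HeightOneSpectrum (𝓞 K))} {m : ℕ} {β : Fin m → 𝓞 L} {i0 i1 : Fin m}
    {p k : ℕ} (hk : 1 ≤ k) (Q : Fin m → 𝓞 K) (z : ℕ × ℕ)
    (h : Zc Bad β (Q + sh i0 i1 z) p k) :
    Zc Bad β (Q + sh i0 i1 (z.1 % p ^ k, z.2 % p ^ k)) p k := by
  obtain ⟨v, hv, w, w', hw, hw', hpw, hh⟩ := h
  have hpw' := (mem_below hw').2 ((mem_below hw).1 hpw)
  have e1 : evB K β (Q + sh i0 i1 (z.1 % p ^ k, z.2 % p ^ k)) = evB K β (Q + sh i0 i1 z) -
      (p : 𝓞 L) ^ k * (((z.1 / p ^ k : ℕ) : 𝓞 L) * β i0 + ((z.2 / p ^ k : ℕ) : 𝓞 L) * β i1) := by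
    rw [evB_sh, evB_sh]
    have h1 : (z.1 : 𝓞 L) = ((z.1 % p ^ k : ℕ) : 𝓞 L) + (p : 𝓞 L) ^ k * ((z.1 / p ^ k : ℕ) : 𝓞 L) := by
      exact_mod_cast congrArg (Nat.cast : ℕ → 𝓞 L) (Nat.mod_add_div z.1 (p ^ k)).symm
    have h2 : (z.2 : 𝓞 L) = ((z.2 % p ^ k : ℕ) : 𝓞 L) + (p : 𝓞 L) ^ k * ((z.2 / p ^ k : ℕ) : 𝓞 L) := by
      exact_mod_cast congrArg (Nat.cast : ℕ → 𝓞 L) (Nat.mod_add_div z.2 (p ^ k)).symm
    simp only
    linear_combination (-β i0) * h1 - β i1 * h2
  have hk1 : ∀ u : HeightOneSpectrum (𝓞 L), (p : 𝓞 L) ∈ u.asIdeal → (p : 𝓞 L) ^ k ∈ u.asIdeal :=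
    fun u hu => Ideal.pow_mem_of_mem _ hu k (by omega)
  refine ⟨v, hv, w, w', hw, hw', hpw, ?_⟩
  rcases hh with hh | ⟨h1, h2, h3, h4⟩
  · left
    rw [e1]
    exact (w.asIdeal ^ k).sub_mem hh (Ideal.mul_mem_right _ _ (Ideal.pow_mem_pow hpw k))
  · right
    refine ⟨h1, ?_, ?_, h4⟩
    · rw [e1]
      exact w.asIdeal.sub_mem h2 (Ideal.mul_mem_right _ _ (hk1 w hpw))
    · rw [e1]
      exact w'.asIdeal.sub_mem h3 (Ideal.mul_mem_right _ _ (hk1 w' hpw'))

/-- the number of vectors with prescribed conditions -/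
lemma count_q {Bad : Finset (HeightOneSpectrum (𝓞 K))} {m : ℕ} {β : Fin m → 𝓞 L} {i0 i1 : Fin m}
    (hG : Good Bad β i0 i1) {B q : ℕ} (hq0 : q ≠ 0) (hqB : q ≤ B) :
    {c ∈ Bx K m B | ∀ p ∈ q.primeFactors, Zc Bad β c p (q.factorization p)}.ncard * q ≤
      (2 * finrank ℚ L ^ 2) ^ q.primeFactors.card *
        (Bx K m ((1 + 2 * sz (1 : 𝓞 K)) * B)).ncard := by
  classical
  have hSf : {c ∈ Bx K m B | ∀ p ∈ q.primeFactors, Zc Bad β c p (q.factorization p)}.Finite :=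
    (Bx_finite m B).subset (Set.sep_subset _ _)
  have hBf := Bx_finite (K := K) m ((1 + 2 * sz (1 : 𝓞 K)) * B)
  rw [Set.ncard_eq_toFinset_card _ hSf, Set.ncard_eq_toFinset_card _ hBf]
  have hz0 : sz (0 : 𝓞 K) = 0 := by
    apply Nat.eq_zero_of_le_zero
    rw [sz_le_iff]
    intro i; simp
  have hsingle : ∀ (i j : Fin m) (a : ℕ), a < q →
      sz ((Pi.single i (a : 𝓞 K) : Fin m → 𝓞 K) j) ≤ B * sz (1 : 𝓞 K) := by
    intro i j a ha
    by_cases h0 : j = i
    · subst h0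
      rw [Pi.single_eq_same]
      exact (sz_nat a).trans (Nat.mul_le_mul_right _ (ha.le.trans hqB))
    · rw [Pi.single_eq_of_ne h0, hz0]
      exact Nat.zero_le _
  have h1 := dcount hSf.toFinset hBf.toFinset (range q ×ˢ range q) (sh i0 i1)
    ((2 * finrank ℚ L ^ 2) ^ q.primeFactors.card * q) ?_ ?_
  · rw [card_product, card_range] at h1
    have hqpos : 0 < q := Nat.pos_of_ne_zero hq0
    refine Nat.le_of_mul_le_mul_right ?_ hqpos
    calc hSf.toFinset.card * q * q = hSf.toFinset.card * (q * q) := by ring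
      _ ≤ _ := h1
      _ = _ := by ring
  · intro c hc z hz
    rw [Set.Finite.mem_toFinset] at hc ⊢
    rw [mem_product, mem_range, mem_range] at hz
    intro j
    have e1 : ((c : Fin m → 𝓞 K) - (sh i0 i1 z : Fin m → 𝓞 K)) j = c j - (Pi.single i0 (z.1 : 𝓞 K) : Fin m → 𝓞 K) j -
        (Pi.single i1 (z.2 : 𝓞 K) : Fin m → 𝓞 K) j := by
      unfold sh
      rw [Pi.sub_apply, Pi.add_apply]
      ring
    rw [e1]
    refine (sz_sub _ _).trans ?_
    have h2 := sz_sub (c j) ((Pi.single i0 (z.1 : 𝓞 K) : Fin m → 𝓞 K) j)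
    have h3 := hsingle i0 j z.1 hz.1
    have h4 := hsingle i1 j z.2 hz.2
    have h5 : sz (c j) ≤ B := hc.1 j
    have h6 : (1 + 2 * sz (1 : 𝓞 K)) * B = B + B * sz (1 : 𝓞 K) + B * sz (1 : 𝓞 K) := by ring
    rw [h6]
    omega
  · intro Q _
    have h2 := crt hq0 (fun p z => Zc Bad β (Q + sh i0 i1 z) p (q.factorization p))
      (fun p => 2 * finrank ℚ L ^ 2 * p ^ q.factorization p) ?_ ?_
    · have h3 : ∏ p ∈ q.primeFactors, (2 * finrank ℚ L ^ 2 * p ^ q.factorization p) =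
          (2 * finrank ℚ L ^ 2) ^ q.primeFactors.card * q := by
        rw [Finset.prod_mul_distrib, Finset.prod_const]
        congr 1
        exact Nat.prod_factorization_pow_eq_self hq0
      rw [← h3]
      refine le_trans (Finset.card_le_card ?_) h2
      intro z hz
      rw [mem_filter, Set.Finite.mem_toFinset] at hz
      rw [mem_filter]
      exact ⟨hz.1, hz.2.2⟩
    · intro p hp z hz
      refine Zc_mod ?_ Q z hz
      have := (Nat.Prime.factorization_pos_of_dvd (Nat.prime_of_mem_primeFactors hp) hq0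
        (Nat.dvd_of_mem_primeFactors hp))
      omega
    · intro p hp
      exact local_count hG (Nat.prime_of_mem_primeFactors hp) Q

/-- the rational prime below -/
noncomputable def pv (w : HeightOneSpectrum (𝓞 L)) : ℕ := Ideal.absNorm (Ideal.under ℤ w.asIdeal)

lemma pv_prime (w : HeightOneSpectrum (𝓞 L)) : (pv w).Prime := by
  have : w.asIdeal.IsPrime := w.isPrime
  have : NeZero w.asIdeal := ⟨w.ne_bot⟩
  exact Nat.absNorm_under_prime w.asIdeal

lemma pv_mem (w : HeightOneSpectrum (𝓞 L)) : ((pv w : ℕ) : 𝓞 L) ∈ w.asIdeal :=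
  Int.absNorm_under_mem w.asIdeal

/-- admissible moduli -/
def Adm (Bad : Finset (HeightOneSpectrum (𝓞 K))) {m : ℕ} (β : Fin m → 𝓞 L) (c : Fin m → 𝓞 K)
    (y : ℝ) (q : ℕ) : Prop :=
  q ≠ 0 ∧ ∀ p ∈ q.primeFactors, 2 ≤ q.factorization p ∧ (p : ℝ) ≤ y ∧
    Zc Bad β c p (q.factorization p)

lemma adm_step {Bad : Finset (HeightOneSpectrum (𝓞 K))} {m : ℕ} {β : Fin m → 𝓞 L}
    {c : Fin m → 𝓞 K} {y : ℝ} {q : ℕ} (hq : Adm Bad β c y q) (hq1 : q ≠ 1) :
    ∃ q' d, q = q' * d ∧ Adm Bad β c y q' ∧ 2 ≤ d ∧ (d : ℝ) ≤ y ^ 2 := by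
  obtain ⟨hq0, hq⟩ := hq
  obtain ⟨p, hp, hpq⟩ := Nat.exists_prime_and_dvd hq1
  have hpm : p ∈ q.primeFactors := Nat.mem_primeFactors.2 ⟨hp, hpq, hq0⟩
  obtain ⟨hk2, hpy, hZ⟩ := hq p hpm
  obtain ⟨k, hk⟩ : ∃ k, k = q.factorization p := ⟨_, rfl⟩
  rw [← hk] at hk2 hZ
  obtain ⟨j, hj1, hjk, hj2, hj3⟩ : ∃ j, 1 ≤ j ∧ j ≤ k ∧ j ≤ 2 ∧ (k - j = 0 ∨
      (2 ≤ k - j ∧ Zc Bad β c p (k - j))) := by
    by_cases h2 : k = 2
    · exact ⟨2, by omega, by omega, le_rfl, Or.inl (by omega)⟩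
    · refine ⟨1, le_rfl, by omega, by omega, Or.inr ⟨by omega, ?_⟩⟩
      obtain ⟨v, hv, w, w', hw, hw', hpw, hh⟩ := hZ
      refine ⟨v, hv, w, w', hw, hw', hpw, Or.inl ?_⟩
      rcases hh with hh | hh
      · exact Ideal.pow_le_pow_right (by omega) hh
      · exact absurd hh.1 h2
  have hdvd : p ^ j ∣ q := by
    refine (pow_dvd_pow p hjk).trans ?_
    rw [hk]
    exact Nat.ordProj_dvd q p
  obtain ⟨q', hq'⟩ := hdvd
  have hq'0 : q' ≠ 0 := by
    rintro rfl
    rw [mul_zero] at hq'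
    exact hq0 hq'
  have hpj0 : p ^ j ≠ 0 := (pow_pos hp.pos j).ne'
  have hfac : ∀ r, q.factorization r = (Finsupp.single p j) r + q'.factorization r := by
    intro r
    rw [hq', Nat.factorization_mul hpj0 hq'0, hp.factorization_pow, Finsupp.add_apply]
  have hp2 : (p : ℝ) ^ 2 ≤ y ^ 2 := pow_le_pow_left₀ (Nat.cast_nonneg _) hpy 2
  have hp1 : (1 : ℝ) ≤ p := by exact_mod_cast hp.one_lt.le
  refine ⟨q', p ^ j, by rw [hq', mul_comm], ⟨hq'0, ?_⟩, ?_, ?_⟩
  · intro r hr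
    by_cases hrp : r = p
    · subst hrp
      have h1 := hfac r
      rw [Finsupp.single_eq_same, ← hk] at h1
      have h2 : q'.factorization r = k - j := by omega
      have h3 : 0 < q'.factorization r := Nat.Prime.factorization_pos_of_dvd hp hq'0
        (Nat.dvd_of_mem_primeFactors hr)
      rcases hj3 with h | ⟨h4, h5⟩
      · omega
      · rw [h2]
        exact ⟨h4, hpy, h5⟩
    · have h1 := hfac r
      rw [Finsupp.single_eq_of_ne (by exact hrp), zero_add] at h1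
      rw [← h1]
      refine hq r ?_
      rw [Nat.mem_primeFactors]
      refine ⟨Nat.prime_of_mem_primeFactors hr, ?_, hq0⟩
      rw [hq']
      exact (Nat.dvd_of_mem_primeFactors hr).mul_left _
  · calc 2 ≤ p := hp.two_le
      _ = p ^ 1 := (pow_one p).symm
      _ ≤ p ^ j := Nat.pow_le_pow_right hp.pos hj1
  · push_cast
    exact (pow_le_pow_right₀ hp1 hj2).trans hp2

/-- the modulus of a bad vector -/
lemma modulus {Bad : Finset (HeightOneSpectrum (𝓞 K))} {m : ℕ} {β : Fin m → 𝓞 L}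
    {c : Fin m → 𝓞 K} {κ y lB : ℝ} (W : Finset (HeightOneSpectrum (𝓞 L)))
    (hW : ∀ w ∈ W, ∃ v ∉ Bad, w.asIdeal.LiesOver v.asIdeal ∧
        (Ideal.absNorm v.asIdeal : ℝ) ≤ y ∧ NSB β c v)
    (e : HeightOneSpectrum (𝓞 L) → ℕ) (he : ∀ w ∈ W, evB K β c ∈ w.asIdeal ^ e w)
    (hs : κ * lB ≤ ∑ w ∈ W, e w * lN w) :
    ∃ Q : ℕ, Adm Bad β c y Q ∧ κ * lB ≤ (finrank ℚ L : ℝ) ^ 2 * Real.log Q := by
  classical
  set W1 := W.filter fun w => 1 ≤ e w with hW1
  set PP := W1.image pv with hPP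
  set k : ℕ → ℕ := fun p => max 2 ((W1.filter fun w => pv w = p).sup e) with hk
  have hk2 : ∀ p, 2 ≤ k p := fun p => le_max_left _ _
  have hPPp : ∀ p ∈ PP, p.Prime := by
    intro p hp
    obtain ⟨w, -, rfl⟩ := mem_image.1 hp
    exact pv_prime w
  set Q : ℕ := ∏ p ∈ PP, p ^ k p with hQ
  have hQ0 : Q ≠ 0 := Finset.prod_ne_zero_iff.2 fun p hp => (pow_pos (hPPp p hp).pos _).ne'
  have hfac : ∀ r, Q.factorization r = if r ∈ PP then k r else 0 := by
    intro r
    rw [hQ, Nat.factorization_prod fun p hp => (pow_pos (hPPp p hp).pos _).ne', Finsupp.finsetSum_apply]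
    have h1 : ∀ p ∈ PP, (p ^ k p).factorization r = if p = r then k r else 0 := by
      intro p hp
      rw [(hPPp p hp).factorization_pow]
      by_cases h : p = r
      · subst h
        rw [Finsupp.single_eq_same, if_pos rfl]
      · rw [if_neg h, Finsupp.single_eq_of_ne (by exact fun h' => h h'.symm)]
    rw [Finset.sum_congr rfl h1, Finset.sum_ite_eq']
  have hpf : ∀ p ∈ Q.primeFactors, p ∈ PP := by
    intro p hp
    by_contra h
    have h1 := hfac p
    rw [if_neg h] at h1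
    have := Nat.Prime.factorization_pos_of_dvd (Nat.prime_of_mem_primeFactors hp) hQ0
      (Nat.dvd_of_mem_primeFactors hp)
    omega
  refine ⟨Q, ⟨hQ0, ?_⟩, ?_⟩
  · intro p hp
    have hpP := hpf p hp
    have h1 := hfac p
    rw [if_pos hpP] at h1
    rw [h1]
    refine ⟨hk2 p, ?_⟩
    obtain ⟨w1, hw1, hw1p⟩ := mem_image.1 hpP
    have hne : (W1.filter fun w => pv w = p).Nonempty := ⟨w1, mem_filter.2 ⟨hw1, hw1p⟩⟩
    obtain ⟨w0, hw0, hsup⟩ := Finset.exists_mem_eq_sup _ hne e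
    rw [mem_filter, hW1, mem_filter] at hw0
    obtain ⟨⟨hw0W, hw0e⟩, hw0p⟩ := hw0
    obtain ⟨v, hv, hwv, hvy, hN⟩ := hW w0 hw0W
    have hpw0 : (p : 𝓞 L) ∈ w0.asIdeal := by
      rw [← hw0p]
      exact pv_mem w0
    have hpv : (p : 𝓞 K) ∈ v.asIdeal := (mem_below hwv).1 hpw0
    refine ⟨?_, ?_⟩
    · obtain ⟨j, hj1, -, hj⟩ := norm_pp (hPPp p hpP) hpv
      refine le_trans ?_ hvy
      rw [hj]
      have : p ^ 1 ≤ p ^ j := Nat.pow_le_pow_right (hPPp p hpP).pos hj1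
      rw [pow_one] at this
      exact_mod_cast this
    · by_cases h2 : 2 ≤ e w0
      · have hke : k p = e w0 := by
          rw [hk]
          simp only
          rw [hsup]
          exact max_eq_right h2
        rw [hke]
        exact ⟨v, hv, w0, w0, hwv, hwv, hpw0, Or.inl (he w0 hw0W)⟩
      · have hke : k p = 2 := by
          rw [hk]
          simp only
          rw [hsup]
          exact max_eq_left (by omega)
        rw [hke]
        obtain ⟨b, ⟨w, hw, hb⟩, hcb⟩ := hN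
        have hpw : (p : 𝓞 L) ∈ w.asIdeal := (mem_below hw).2 hpv
        rcases hb with hb | ⟨w', hw', hne', hb⟩ | ⟨hb, hlt⟩
        · exact ⟨v, hv, w, w, hw, hw, hpw, Or.inl (by rw [← hb]; exact hcb)⟩
        · have hl1 : b ≤ w.asIdeal := by rw [hb]; exact Ideal.mul_le_left
          have hl2 : b ≤ w'.asIdeal := by rw [hb]; exact Ideal.mul_le_right
          exact ⟨v, hv, w, w', hw, hw', hpw, Or.inr ⟨rfl, hl1 hcb, hl2 hcb, Or.inr hne'⟩⟩
        · have hl1 : b ≤ w.asIdeal := hb.le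
          exact ⟨v, hv, w, w, hw, hw, hpw, Or.inr ⟨rfl, hl1 hcb, hl1 hcb, Or.inl hlt⟩⟩
  · refine hs.trans ?_
    have hlogQ : Real.log Q = ∑ p ∈ PP, (k p : ℝ) * Real.log p := by
      rw [hQ, Nat.cast_prod, Real.log_prod]
      · refine Finset.sum_congr rfl fun p _ => ?_
        rw [Nat.cast_pow, Real.log_pow]
      · intro p hp
        have := (pow_pos (hPPp p hp).pos (k p)).ne'
        exact_mod_cast this
    have h1 : ∑ w ∈ W, (e w : ℝ) * lN w = ∑ w ∈ W1, (e w : ℝ) * lN w := by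
      rw [hW1, Finset.sum_filter]
      refine Finset.sum_congr rfl fun w _ => ?_
      split_ifs with h
      · rfl
      · have : e w = 0 := by omega
        rw [this]
        simp
    rw [h1]
    have hln : ∀ w : HeightOneSpectrum (𝓞 L), lN w ≤ (finrank ℚ L : ℝ) * Real.log (pv w) := by
      intro w
      obtain ⟨j, -, hj2, hj⟩ := norm_pp (pv_prime w) (pv_mem w)
      unfold lN
      rw [hj, Nat.cast_pow, Real.log_pow]
      refine mul_le_mul_of_nonneg_right (by exact_mod_cast hj2) (Real.log_natCast_nonneg _)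
    have h2 : ∀ w ∈ W1, (e w : ℝ) * lN w ≤
        (k (pv w) : ℝ) * ((finrank ℚ L : ℝ) * Real.log (pv w)) := by
      intro w hw
      have h3 : e w ≤ k (pv w) := by
        refine le_trans ?_ (le_max_right _ _)
        exact Finset.le_sup (f := e) (mem_filter.2 ⟨hw, rfl⟩)
      refine mul_le_mul (by exact_mod_cast h3) (hln w) ?_ (Nat.cast_nonneg _)
      exact Real.log_natCast_nonneg _
    refine (Finset.sum_le_sum h2).trans ?_
    have h4 : ∑ w ∈ W1, (k (pv w) : ℝ) * ((finrank ℚ L : ℝ) * Real.log (pv w)) =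
        ∑ p ∈ PP, ∑ w ∈ W1.filter (fun w => pv w = p),
          (k (pv w) : ℝ) * ((finrank ℚ L : ℝ) * Real.log (pv w)) := by
      rw [hPP, Finset.sum_fiberwise_of_maps_to]
      intro w hw
      exact mem_image_of_mem _ hw
    rw [h4, hlogQ, Finset.mul_sum]
    refine Finset.sum_le_sum fun p hp => ?_
    have h5 : ∑ w ∈ W1.filter (fun w => pv w = p),
          (k (pv w) : ℝ) * ((finrank ℚ L : ℝ) * Real.log (pv w)) =
        ((W1.filter fun w => pv w = p).card : ℝ) *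
          ((k p : ℝ) * ((finrank ℚ L : ℝ) * Real.log p)) := by
      rw [← nsmul_eq_mul, ← Finset.sum_const]
      refine Finset.sum_congr rfl fun w hw => ?_
      rw [(mem_filter.1 hw).2]
    rw [h5]
    have h6 : (W1.filter fun w => pv w = p).card ≤ finrank ℚ L := by
      refine card_above (hPPp p hp) _ fun w hw => ?_
      rw [← (mem_filter.1 hw).2]
      exact pv_mem w
    have h7 : (0 : ℝ) ≤ (k p : ℝ) * ((finrank ℚ L : ℝ) * Real.log p) := by
      have := Real.log_natCast_nonneg p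
      positivity
    calc ((W1.filter fun w => pv w = p).card : ℝ) *
          ((k p : ℝ) * ((finrank ℚ L : ℝ) * Real.log p)) ≤
        (finrank ℚ L : ℝ) * ((k p : ℝ) * ((finrank ℚ L : ℝ) * Real.log p)) :=
          mul_le_mul_of_nonneg_right (by exact_mod_cast h6) h7
      _ = _ := by ring

end Pool.Agent.H65CV.Small
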