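import Mathlib
import Pool.Agent.H65CV.Small

/-!
# CV/SMALLB: the part of small primes with double zeros is rarely large
-/

set_option autoImplicit false

namespace Pool.Agent.H65CV.Small

open NumberField IsDedekindDomain Module Polynomial Pool.Agent.N753.DR Pool.Agent.N262.DR Finset
open Pool.Agent.N147.DR Pool.Agent.N340.DR

variable {K L : Type} [Field K] [NumberField K] [Field L] [NumberField L] [Algebra K L]

/-- the vectors for which all conditions at the modulus `q` hold -/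
def Sq (Bad : Finset (HeightOneSpectrum (𝓞 K))) {m : ℕ} (β : Fin m → 𝓞 L) (B q : ℕ) :
    Set (Fin m → 𝓞 K) :=
  {c ∈ Bx K m B | ∀ p ∈ q.primeFactors, Zc Bad β c p (q.factorization p)}

theorem smallB : StmSmallB := by
  classical
  intro K L _ _ _ _ _ m β i0 i1 hβ hgen
  obtain ⟨Bad, hBad⟩ := N394.CV.t K L m β i0 i1 hβ hgen
  have hG : Good Bad β i0 i1 :=
    ⟨fun v hv => (hBad v hv).1, fun v hv => (hBad v hv).2.1, fun v hv => (hBad v hv).2.2.1,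
      fun v hv => (hBad v hv).2.2.2.1⟩
  refine ⟨Bad, fun κ hκ => ?_⟩
  have hn0 : 0 < finrank ℚ L := finrank_pos
  have hnR : (0 : ℝ) < (finrank ℚ L : ℝ) := by exact_mod_cast hn0
  obtain ⟨Cτ, hCτ, hτ⟩ := tau_bound (τ := 2 * finrank ℚ L ^ 2)
    (Nat.one_le_iff_ne_zero.2 (by positivity))
  obtain ⟨Cs, hCs, hsum⟩ := sum_bound
  set η : ℝ := min (κ / (finrank ℚ L : ℝ) ^ 2) (1 / 4) with hη
  have hη0 : 0 < η := lt_min (by positivity) (by norm_num)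
  have hη1 : η ≤ κ / (finrank ℚ L : ℝ) ^ 2 := min_le_left _ _
  have hη2 : η ≤ 1 / 4 := min_le_right _ _
  set R : ℝ := 3 * (1 + 2 * sz (1 : 𝓞 K) : ℕ) with hR
  refine ⟨1 / 8, η / 8, Cτ * Cs * R ^ (finrank ℚ K * m), by norm_num, by positivity, ?_⟩
  intro B hB
  have hBR : (1 : ℝ) ≤ B := by exact_mod_cast hB
  have hB0 : (0 : ℝ) < B := by linarith
  set X : ℝ := (B : ℝ) ^ η with hX
  have hX1 : 1 ≤ X := Real.one_le_rpow hBR hη0.le
  set y : ℝ := (B : ℝ) ^ (1 / 8 : ℝ) with hy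
  have hy1 : 1 ≤ y := Real.one_le_rpow hBR (by norm_num)
  have hXy : X * y ^ 2 ≤ B := by
    rw [hX, hy, ← Real.rpow_natCast, ← Real.rpow_mul hB0.le, ← Real.rpow_add hB0]
    calc (B : ℝ) ^ (η + 1 / 8 * ((2 : ℕ) : ℝ)) ≤ (B : ℝ) ^ (1 : ℝ) :=
          Real.rpow_le_rpow_of_exponent_le hBR (by push_cast; linarith)
      _ = B := Real.rpow_one _
  set Z : Finset (ℕ × ℕ) := (Icc 1 B ×ˢ Icc 1 B).filter
    (fun z : ℕ × ℕ => X ≤ ((z.1 ^ 2 * z.2 ^ 3 : ℕ) : ℝ)) with hZ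
  set Z' : Finset (ℕ × ℕ) := Z.filter (fun z : ℕ × ℕ => z.1 ^ 2 * z.2 ^ 3 ≤ B) with hZ'
  set S : Set (Fin m → 𝓞 K) := {c ∈ Bx K m B | ∃ W : Finset (HeightOneSpectrum (𝓞 L)),
      (∀ w ∈ W, ∃ v ∉ Bad, w.asIdeal.LiesOver v.asIdeal ∧
        (Ideal.absNorm v.asIdeal : ℝ) ≤ (B : ℝ) ^ (1 / 8 : ℝ) ∧ NSB β c v) ∧
      ∃ e : HeightOneSpectrum (𝓞 L) → ℕ, (∀ w ∈ W, evB K β c ∈ w.asIdeal ^ e w) ∧
        κ * Real.log B ≤ ∑ w ∈ W, e w * lN w} with hS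
  have hsub : S ⊆ ⋃ z ∈ Z', Sq Bad β B (z.1 ^ 2 * z.2 ^ 3) := by
    rintro c ⟨hc, W, hW, e, he, hs⟩
    obtain ⟨Q, hQ, hQs⟩ := modulus W hW e he hs
    have hQ0 : (0 : ℝ) < Q := by exact_mod_cast Nat.pos_of_ne_zero hQ.1
    have hXQ : X ≤ Q := by
      rw [hX, ← Real.log_le_log_iff (by positivity) hQ0, Real.log_rpow hB0]
      have hlB : 0 ≤ Real.log B := Real.log_nonneg hBR
      calc η * Real.log B ≤ κ / (finrank ℚ L : ℝ) ^ 2 * Real.log B :=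
            mul_le_mul_of_nonneg_right hη1 hlB
        _ = κ * Real.log B / (finrank ℚ L : ℝ) ^ 2 := by ring
        _ ≤ Real.log Q := by
            rw [div_le_iff₀ (by positivity)]
            linarith
    obtain ⟨q, hq, hXq, hqX⟩ := descend (Adm Bad β c y) hy1 hX1
      (fun q hq hq1 => adm_step hq hq1) (fun q hq => hq.1) Q hQ hXQ
    have hqB : q ≤ B := by exact_mod_cast hqX.trans hXy
    obtain ⟨a, b, hab⟩ := pow_rep hq.1 fun p hp => (hq.2 p hp).1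
    have hq0 := hq.1
    have ha0 : a ≠ 0 := by
      rintro rfl
      apply hq0
      rw [hab]
      ring
    have hb0 : b ≠ 0 := by
      rintro rfl
      apply hq0
      rw [hab]
      ring
    have ha1 : 1 ≤ a := Nat.one_le_iff_ne_zero.2 ha0
    have hb1 : 1 ≤ b := Nat.one_le_iff_ne_zero.2 hb0
    have haB : a ≤ B := by
      refine le_trans ?_ hqB
      rw [hab]
      calc a = a * 1 := (mul_one a).symm
        _ ≤ a * (a * b ^ 3) := Nat.mul_le_mul_left _ (Nat.one_le_iff_ne_zero.2 (by positivity))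
        _ = a ^ 2 * b ^ 3 := by ring
    have hbB : b ≤ B := by
      refine le_trans ?_ hqB
      rw [hab]
      calc b = b * 1 := (mul_one b).symm
        _ ≤ b * (b ^ 2 * a ^ 2) := Nat.mul_le_mul_left _ (Nat.one_le_iff_ne_zero.2 (by positivity))
        _ = a ^ 2 * b ^ 3 := by ring
    rw [Set.mem_iUnion₂]
    refine ⟨(a, b), ?_, hc, ?_⟩
    · rw [hZ', mem_filter, hZ, mem_filter, mem_product, mem_Icc, mem_Icc]
      simp only
      rw [← hab]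
      exact ⟨⟨⟨⟨ha1, haB⟩, hb1, hbB⟩, hXq⟩, hqB⟩
    · simp only
      rw [← hab]
      exact fun p hp => (hq.2 p hp).2.2
  have hSqfin : ∀ q, (Sq Bad β B q).Finite := fun q =>
    (Bx_finite m B).subset (Set.sep_subset _ _)
  have h1 : S.ncard ≤ ∑ z ∈ Z', (Sq Bad β B (z.1 ^ 2 * z.2 ^ 3)).ncard := by
    refine (Set.ncard_le_ncard hsub ?_).trans ?_
    · exact Set.Finite.biUnion Z'.finite_toSet fun z _ => hSqfin _
    · exact Finset.set_ncard_biUnion_le _ _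
  set N : ℕ := (Bx K m ((1 + 2 * sz (1 : 𝓞 K)) * B)).ncard with hN
  have hNR : (N : ℝ) ≤ R ^ (finrank ℚ K * m) * (B : ℝ) ^ (finrank ℚ K * m) := by
    have h2 := Bx_card (K := K) m ((1 + 2 * sz (1 : 𝓞 K)) * B)
    have h3 : (N : ℝ) ≤ ((2 * ((1 + 2 * sz (1 : 𝓞 K)) * B) + 1 : ℕ) : ℝ) ^ (finrank ℚ K * m) := by
      exact_mod_cast h2
    refine h3.trans ?_
    rw [← mul_pow]
    refine pow_le_pow_left₀ (Nat.cast_nonneg _) ?_ _
    rw [hR]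
    have h4 : 1 ≤ (1 + 2 * sz (1 : 𝓞 K)) * B := Nat.one_le_iff_ne_zero.2 (by positivity)
    have h5 : 2 * ((1 + 2 * sz (1 : 𝓞 K)) * B) + 1 ≤ 3 * ((1 + 2 * sz (1 : 𝓞 K)) * B) := by omega
    have h6 : ((2 * ((1 + 2 * sz (1 : 𝓞 K)) * B) + 1 : ℕ) : ℝ) ≤
        ((3 * ((1 + 2 * sz (1 : 𝓞 K)) * B) : ℕ) : ℝ) := by exact_mod_cast h5
    refine h6.trans (le_of_eq ?_)
    push_cast
    ring
  have h7 : ∀ z ∈ Z', ((Sq Bad β B (z.1 ^ 2 * z.2 ^ 3)).ncard : ℝ) ≤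
      Cτ * N * (((z.1 ^ 2 * z.2 ^ 3 : ℕ) : ℝ)) ^ (-(7 / 8) : ℝ) := by
    intro z hz
    rw [hZ', mem_filter, hZ, mem_filter] at hz
    obtain ⟨⟨-, hXz⟩, hzB⟩ := hz
    obtain ⟨q, hq⟩ : ∃ q, q = z.1 ^ 2 * z.2 ^ 3 := ⟨_, rfl⟩
    rw [← hq] at hXz hzB ⊢
    have hqR : (0 : ℝ) < q := by linarith
    have hq0 : q ≠ 0 := by
      rintro rfl
      simp at hqR
    have h8 := count_q hG hq0 hzB
    have h9 : ((Sq Bad β B q).ncard : ℝ) * q ≤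
        ((2 * finrank ℚ L ^ 2 : ℕ) : ℝ) ^ q.primeFactors.card * N := by
      unfold Sq
      exact_mod_cast h8
    have h10 := hτ q hq0
    have h11 : ((Sq Bad β B q).ncard : ℝ) * q ≤ Cτ * (q : ℝ) ^ (1 / 8 : ℝ) * N :=
      h9.trans (mul_le_mul_of_nonneg_right h10 (Nat.cast_nonneg _))
    have h12 : (q : ℝ) ^ (-(7 / 8) : ℝ) = (q : ℝ) ^ (1 / 8 : ℝ) / q := by
      rw [show (-(7 / 8) : ℝ) = 1 / 8 - 1 by norm_num, Real.rpow_sub hqR, Real.rpow_one]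
    rw [h12, ← mul_div_assoc, le_div_iff₀ hqR]
    calc ((Sq Bad β B q).ncard : ℝ) * q ≤ Cτ * (q : ℝ) ^ (1 / 8 : ℝ) * N := h11
      _ = _ := by ring
  have h13 : (S.ncard : ℝ) ≤ Cτ * N * (Cs * X ^ (-(1 / 8) : ℝ)) := by
    calc (S.ncard : ℝ) ≤ ((∑ z ∈ Z', (Sq Bad β B (z.1 ^ 2 * z.2 ^ 3)).ncard : ℕ) : ℝ) := by
          exact_mod_cast h1
      _ = ∑ z ∈ Z', ((Sq Bad β B (z.1 ^ 2 * z.2 ^ 3)).ncard : ℝ) := Nat.cast_sum _ _
      _ ≤ ∑ z ∈ Z', Cτ * N * (((z.1 ^ 2 * z.2 ^ 3 : ℕ) : ℝ)) ^ (-(7 / 8) : ℝ) :=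
          Finset.sum_le_sum h7
      _ ≤ ∑ z ∈ Z, Cτ * N * (((z.1 ^ 2 * z.2 ^ 3 : ℕ) : ℝ)) ^ (-(7 / 8) : ℝ) :=
          Finset.sum_le_sum_of_subset_of_nonneg (Finset.filter_subset _ _)
            fun _ _ _ => by positivity
      _ = Cτ * N * ∑ z ∈ Z, (((z.1 ^ 2 * z.2 ^ 3 : ℕ) : ℝ)) ^ (-(7 / 8) : ℝ) := by
          rw [Finset.mul_sum]
      _ ≤ _ := mul_le_mul_of_nonneg_left (hsum B X hX1) (by positivity)
  refine h13.trans ?_
  have h14 : X ^ (-(1 / 8) : ℝ) = (B : ℝ) ^ (-(η / 8)) := by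
    rw [hX, ← Real.rpow_mul hB0.le]
    congr 1
    ring
  have h15 : (B : ℝ) ^ ((finrank ℚ K : ℝ) * m - η / 8) =
      (B : ℝ) ^ (finrank ℚ K * m) * (B : ℝ) ^ (-(η / 8)) := by
    rw [sub_eq_add_neg, Real.rpow_add hB0]
    congr 1
    rw [← Real.rpow_natCast]
    congr 1
    push_cast
    ring
  rw [h14, h15]
  calc Cτ * N * (Cs * (B : ℝ) ^ (-(η / 8))) = Cτ * Cs * (B : ℝ) ^ (-(η / 8)) * N := by ring
    _ ≤ Cτ * Cs * (B : ℝ) ^ (-(η / 8)) * (R ^ (finrank ℚ K * m) * (B : ℝ) ^ (finrank ℚ K * m)) :=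
        mul_le_mul_of_nonneg_left hNR (by positivity)
    _ = _ := by ring

end Pool.Agent.H65CV.Small
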