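import Mathlib
import Pool.Agent.H65CV.SmallB
import Pool.Agent.N297.CV.MainC
import Pool.Agent.N849.CV.CntC
import Pool.Agent.N328.CV.CoreV
import Pool.Agent.N490.CV.CoreB
import Pool.Agent.N966.CV.LargeB
import Pool.Agent.N966.CV.PlacesB
import Pool.Agent.N488.CV.LinkC
import Pool.Agent.N498.CV.Redc
import Pool.Agent.N572.DR.Diag
import Pool.Agent.N650.CV.FldC
import Pool.Agent.N265.CV.Htc
import Pool.Agent.N776.CV.Sep
import Pool.Agent.N752.CV.UniC
import Pool.Agent.N752.CV.ZeroC
import Pool.Agent.N147.DR.Lat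

/-!
# Project CV: the main theorem
-/

set_option autoImplicit false

namespace Pool.Agent.H65CV

open Pool.Agent.N753.DR

theorem coreB : StmCoreB :=
  N490.CV.CoreB.t N394.CV.t (N966.CV.LargeB.t N147.DR.t N394.CV.t) Small.smallB N966.CV.PlacesB.t

theorem coreV : StmCoreV := N328.CV.t coreB

theorem cntC : StmCntC := N849.CVN.cntC coreV N488.CV.t N498.CV.t

theorem mainC : StmMainC :=
  N297.CV.MainC.t N572.DR.Diag.t cntC N265.CV.t N752.CV.t (N752.CV.t2 N498.CV.t)
    (N650.CV.FldC.t N265.CV.t) N776.CV.t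

end Pool.Agent.H65CV
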