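import Mathlib
import Pool.Agent.N753.DR.Stm4
import Pool.Agent.N752.CV.UniC
import Pool.Agent.N752.CV.ZeroC
import Pool.Agent.N498.CV.Redc

/-!
# Few members vanish at a given finite set of points
-/

set_option autoImplicit false

namespace Pool.Agent.H65CV.Pts

open NumberField IsDedekindDomain Module Polynomial Pool.Agent.N753.DR
open scoped LinearAlgebra.Projectivization

/-- finitely many maximal ideals contain a given nonzero element -/
theorem max_fin (K : Type) {A : Type} [Field K] [CommRing A] [IsDomain A] [Algebra K[X] A]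
    [Module.Finite K[X] A] {a : A} (ha : a ≠ 0) : {I : Ideal A | I.IsMaximal ∧ a ∈ I}.Finite := by
  have hN : IsNoetherianRing A := IsNoetherianRing.of_finite K[X] A
  have hint : Algebra.IsIntegral K[X] A := inferInstance
  refine (Ideal.finite_minimalPrimes_of_isNoetherianRing A (Ideal.span {a})).subset ?_
  rintro I ⟨hI, haI⟩
  have hIp := hI.isPrime
  refine ⟨⟨hIp, by rwa [Ideal.span_singleton_le_iff_mem]⟩, ?_⟩
  rintro q ⟨hq, haq⟩ hqI
  rw [Ideal.span_singleton_le_iff_mem] at haq
  have h1 : q.comap (algebraMap K[X] A) ≠ ⊥ :=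
    Ideal.comap_ne_bot_of_integral_mem ha haq (Algebra.IsIntegral.isIntegral (R := K[X]) a)
  have h2 : (q.comap (algebraMap K[X] A)).IsPrime := inferInstance
  have h3 : (q.comap (algebraMap K[X] A)).IsMaximal := h2.isMaximal h1
  have h4 : q.IsMaximal := Ideal.isMaximal_of_isIntegral_of_isMaximal_comap q h3
  exact (h4.eq_of_le hI.ne_top hqI).ge

/-- finitely many members vanish at points with coordinates which are zeros of a given polynomial -/
theorem pts_fin {K A : Type} [Field K] [NumberField K] [CommRing A] [IsDomain A]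
    [Algebra K A] [Algebra K[X] A] [IsScalarTower K K[X] A] [Module.Finite K[X] A]
    [FaithfulSMul K[X] A] {m : ℕ} (f : Fin m → A) (Q : MvPolynomial (Fin m) K)
    (hQ : ∀ c c' : Fin m → K, MvPolynomial.eval c Q ≠ 0 →
      Ideal.span {mem f c} = Ideal.span {mem f c'} → ∃ l : K, l ≠ 0 ∧ c' = l • c)
    (G : ℚ[X]) (hG : G ≠ 0) :
    {P : ℙ K (Fin m → K) | MvPolynomial.eval P.rep Q ≠ 0 ∧
      ∃ (M : Type) (_ : Field M) (_ : NumberField M) (_ : Algebra K M) (φ : A →ₐ[K] M),
        Function.Surjective φ ∧ RingHom.ker φ = Ideal.span {mem f P.rep} ∧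
          aeval (φ (algebraMap K[X] A X)) G = 0}.Finite := by
  set a : A := algebraMap K[X] A (G.map (algebraMap ℚ K)) with ha
  have ha0 : a ≠ 0 := by
    rw [ha, Ne, FaithfulSMul.algebraMap_eq_zero_iff,
      Polynomial.map_eq_zero_iff (algebraMap ℚ K).injective]
    exact hG
  refine Set.Finite.of_finite_image (f := fun P : ℙ K (Fin m → K) => Ideal.span {mem f P.rep})
    ((max_fin K ha0).subset ?_) ?_
  · rintro _ ⟨P, ⟨-, M, _, _, _, φ, hφ, hker, hG0⟩, rfl⟩
    refine ⟨?_, ?_⟩
    · show (Ideal.span {mem f P.rep}).IsMaximal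
      rw [← hker]
      exact RingHom.ker_isMaximal_of_surjective (φ : A →+* M) hφ
    · show a ∈ Ideal.span {mem f P.rep}
      rw [← hker, RingHom.mem_ker]
      have h1 : ∀ g : K[X], φ (algebraMap K[X] A g) = aeval (φ (algebraMap K[X] A X)) g := by
        intro g
        have h2 : (φ.comp (IsScalarTower.toAlgHom K K[X] A)) =
            aeval (φ (algebraMap K[X] A X)) := by
          apply Polynomial.algHom_ext
          rw [aeval_X]
          rfl
        exact congrArg (fun F : K[X] →ₐ[K] M => F g) h2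
      rw [ha, h1, aeval_map_algebraMap]
      exact hG0
  · rintro P ⟨hP, -⟩ P' - h
    obtain ⟨l, hl, hl'⟩ := hQ P.rep P'.rep hP h
    rw [← P.mk_rep, ← P'.mk_rep, Projectivization.mk_eq_mk_iff']
    refine ⟨l⁻¹, ?_⟩
    rw [hl', smul_smul, inv_mul_cancel₀ hl, one_smul]

end Pool.Agent.H65CV.Pts
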