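import Mathlib
import Pool.Agent.N901.PC.Comb

/-!
# Ramification above a subfield and the relative discriminant
-/

set_option autoImplicit false

namespace Pool.Agent.H65CV.Rel

open NumberField IsDedekindDomain Module
open Pool.Agent.N753.DR Pool.Agent.N901.PC.Comb

variable {M L : Type} [Field M] [NumberField M] [Field L] [NumberField L] [Algebra M L]

/-- the discriminant of an extension -/
theorem disc_tower : Real.log |(discr L : ℝ)| =
    Real.log (Ideal.absNorm (differentIdeal (𝓞 M) (𝓞 L))) +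
      finrank M L * Real.log |(discr M : ℝ)| := by
  have h1 := natAbs_discr_eq_absNorm_differentIdeal_mul_natAbs_discr_pow M (𝓞 M) L (𝓞 L)
  have h2 : |(discr L : ℝ)| = ((discr L).natAbs : ℝ) := by
    rw [Nat.cast_natAbs, Int.cast_abs]
  have h3 : |(discr M : ℝ)| = ((discr M).natAbs : ℝ) := by
    rw [Nat.cast_natAbs, Int.cast_abs]
  have hL : (discr L).natAbs ≠ 0 := Int.natAbs_ne_zero.2 (discr_ne_zero L)
  have hM : (discr M).natAbs ≠ 0 := Int.natAbs_ne_zero.2 (discr_ne_zero M)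
  have hD : Ideal.absNorm (differentIdeal (𝓞 M) (𝓞 L)) ≠ 0 := by
    intro h
    rw [h, zero_mul] at h1
    exact hL h1
  rw [h2, h3, h1, Nat.cast_mul, Nat.cast_pow, Real.log_mul, Real.log_pow]
  · exact_mod_cast hD
  · exact_mod_cast pow_ne_zero _ hM

theorem diff_ne_zero : Ideal.absNorm (differentIdeal (𝓞 M) (𝓞 L)) ≠ 0 := by
  have h1 := natAbs_discr_eq_absNorm_differentIdeal_mul_natAbs_discr_pow M (𝓞 M) L (𝓞 L)
  have hL : (discr L).natAbs ≠ 0 := Int.natAbs_ne_zero.2 (discr_ne_zero L)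
  intro h
  rw [h, zero_mul] at h1
  exact hL h1

/-- the discriminant grows -/
theorem disc_mono : finrank M L * Real.log |(discr M : ℝ)| ≤ Real.log |(discr L : ℝ)| := by
  rw [disc_tower (M := M) (L := L)]
  have := Real.log_natCast_nonneg (Ideal.absNorm (differentIdeal (𝓞 M) (𝓞 L)))
  linarith

/-- the ramified primes divide the relative different -/
theorem disc_rel (V : Finset (HeightOneSpectrum (𝓞 L))) (e : HeightOneSpectrum (𝓞 L) → ℕ)
    (he : ∀ u ∈ V, ∃ w : HeightOneSpectrum (𝓞 M), u.asIdeal.LiesOver w.asIdeal ∧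
      e u = w.asIdeal.ramificationIdx' u.asIdeal) :
    ∑ u ∈ V, ((e u - 1 : ℕ) : ℝ) * lN u ≤
      Real.log (Ideal.absNorm (differentIdeal (𝓞 M) (𝓞 L))) := by
  classical
  have h1 : ∏ u ∈ V, u.asIdeal ^ (e u - 1) ∣ differentIdeal (𝓞 M) (𝓞 L) := by
    refine Finset.prod_dvd_of_coprime ?_ ?_
    · intro u _ u' _ hne
      refine IsCoprime.pow ?_
      rw [Ideal.isCoprime_iff_sup_eq]
      exact u.isMaximal.coprime_of_ne u'.isMaximal fun h => hne (HeightOneSpectrum.ext h)
    · intro u hu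
      obtain ⟨w, hw, hew⟩ := he u hu
      have hmax : w.asIdeal.IsMaximal := w.isMaximal
      refine pow_sub_one_dvd_differentIdeal (𝓞 M) (p := w.asIdeal) u.asIdeal (e u)
        w.ne_bot ?_
      rw [hew]
      exact Ideal.dvd_iff_le.2 Ideal.le_pow_ramificationIdx'
  have h2 := map_dvd (Ideal.absNorm (S := 𝓞 L)) h1
  rw [map_prod] at h2
  have hd : 0 < Ideal.absNorm (differentIdeal (𝓞 M) (𝓞 L)) := Nat.pos_of_ne_zero diff_ne_zero
  have h3 := Nat.le_of_dvd hd h2
  have h4 : ∑ u ∈ V, ((e u - 1 : ℕ) : ℝ) * lN u =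
      Real.log ((∏ u ∈ V, Ideal.absNorm (u.asIdeal ^ (e u - 1)) : ℕ) : ℝ) := by
    push_cast
    rw [Real.log_prod]
    · refine Finset.sum_congr rfl fun u _ => ?_
      rw [map_pow]
      push_cast
      rw [Real.log_pow]
      rfl
    · intro u _
      rw [map_pow]
      push_cast
      apply pow_ne_zero
      exact_mod_cast (Ideal.absNorm_eq_zero_iff.not.2 u.ne_bot)
  rw [h4]
  apply Real.log_le_log
  · rw [Nat.cast_pos]
    exact Nat.pos_of_dvd_of_pos h2 hd
  · exact_mod_cast h3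

/-- the primes above `W`, the ramification is compensated by the discriminant -/
theorem rel (W : Finset (HeightOneSpectrum (𝓞 M))) :
    ∃ V : Finset (HeightOneSpectrum (𝓞 L)), (∀ u, u ∈ V ↔ ∃ w ∈ W, u.asIdeal.LiesOver w.asIdeal) ∧
      finrank M L * ∑ w ∈ W, lN w + finrank M L * Real.log |(discr M : ℝ)| ≤
        ∑ u ∈ V, lN u + Real.log |(discr L : ℝ)| := by
  classical
  choose T hT1 hT2 using fun v : HeightOneSpectrum (𝓞 M) => sum_over (L := L) v
  refine ⟨W.biUnion T, fun u => ?_, ?_⟩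
  · rw [Finset.mem_biUnion]
    exact exists_congr fun w => and_congr_right fun _ => hT1 w u
  -- the prime below
  have hb : ∀ u : HeightOneSpectrum (𝓞 L), ∃ w : HeightOneSpectrum (𝓞 M),
      u.asIdeal.LiesOver w.asIdeal := by
    intro u
    refine ⟨⟨u.asIdeal.under (𝓞 M), ?_, ?_⟩, ⟨rfl⟩⟩
    · have := u.isPrime
      infer_instance
    · intro h
      exact u.ne_bot (Ideal.eq_bot_of_comap_eq_bot h)
  choose β hβ using hb
  set e : HeightOneSpectrum (𝓞 L) → ℕ := fun u =>
    (β u).asIdeal.ramificationIdx' u.asIdeal with he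
  have hun : ∀ u (w : HeightOneSpectrum (𝓞 M)), u.asIdeal.LiesOver w.asIdeal → w = β u := by
    intro u w hw
    have a1 := hw.over
    have a2 := (hβ u).over
    exact HeightOneSpectrum.ext (a1.trans a2.symm)
  have h1 : (finrank M L : ℝ) * ∑ w ∈ W, lN w = ∑ u ∈ W.biUnion T, (e u : ℝ) * lN u := by
    rw [Finset.sum_biUnion, Finset.mul_sum]
    · refine Finset.sum_congr rfl fun w _ => ?_
      rw [← hT2 w]
      refine Finset.sum_congr rfl fun u hu => ?_
      rw [hun u w ((hT1 w u).1 hu)]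
    · intro w _ w' _ hne
      rw [Function.onFun, Finset.disjoint_left]
      intro u hu hu'
      apply hne
      rw [hun u w ((hT1 w u).1 hu), hun u w' ((hT1 w' u).1 hu')]
  have h2 : ∑ u ∈ W.biUnion T, (e u : ℝ) * lN u ≤
      ∑ u ∈ W.biUnion T, lN u + ∑ u ∈ W.biUnion T, ((e u - 1 : ℕ) : ℝ) * lN u := by
    rw [← Finset.sum_add_distrib]
    refine Finset.sum_le_sum fun u _ => ?_
    have h3 : (e u : ℝ) ≤ 1 + ((e u - 1 : ℕ) : ℝ) := by
      have : e u ≤ 1 + (e u - 1) := by omega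
      exact_mod_cast this
    nlinarith [lN_nonneg u]
  have h3 := disc_rel (M := M) (W.biUnion T) e fun u _ => ⟨β u, hβ u, rfl⟩
  have h4 := disc_tower (M := M) (L := L)
  linarith

end Pool.Agent.H65CV.Rel
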