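import Mathlib
import Pool.Agent.H65CV.Main
import Pool.Agent.H65CV.Rel
import Pool.Agent.H65CV.Pts
import Pool.Agent.N753.DR.Stm5

/-!
# One exceptional set for a linear system on a curve and all covers of the curve
-/

set_option autoImplicit false

namespace Pool.Agent.H65CV.Cov

open NumberField IsDedekindDomain Module Polynomial Pool.Agent.N753.DR
open scoped LinearAlgebra.Projectivization

section val

variable {M L : Type} [Field M] [NumberField M] [Field L] [NumberField L] [Algebra M L]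

theorem val_le {w : HeightOneSpectrum (𝓞 M)} {u : HeightOneSpectrum (𝓞 L)}
    (h : u.asIdeal.LiesOver w.asIdeal) {y : M} (hy : w.valuation M y ≤ 1) :
    u.valuation L (algebraMap M L y) ≤ 1 := by
  rw [← HeightOneSpectrum.valuation_liesOver (K := M) L w u y]
  exact pow_le_one' hy _

theorem val_lt {w : HeightOneSpectrum (𝓞 M)} {u : HeightOneSpectrum (𝓞 L)}
    (h : u.asIdeal.LiesOver w.asIdeal) {y : M} (hy : w.valuation M y < 1) :
    u.valuation L (algebraMap M L y) < 1 := by
  rw [← HeightOneSpectrum.valuation_liesOver (K := M) L w u y]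
  refine pow_lt_one' hy ?_
  exact Ideal.IsDedekindDomain.ramificationIdx'_ne_zero_of_liesOver u.asIdeal w.ne_bot

end val

/-- the cover bound -/
def CovBound (K A : Type) [Field K] [NumberField K] [CommRing A] [Algebra K A] [Algebra K[X] A]
    [IsScalarTower K K[X] A] {m : ℕ} (f : Fin m → A) (E : Set (ℙ K (Fin m → K))) : Prop :=
  ∀ (A' : Type) [CommRing A'] [IsDedekindDomain A'] [Algebra K A'] [Algebra K[X] A']
    [IsScalarTower K K[X] A'] [Module.Finite K[X] A'] [FaithfulSMul K[X] A']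
    (π : A →ₐ[K[X]] A') (q : ℕ) (u v : Fin q → ℕ) (g : ∀ j, Fin (u j) → A)
    (y : ∀ j, Fin (v j) → A') (F : Fin q → Ideal A'),
    (∀ j, (Ideal.span (Set.range (g j))).IsMaximal) →
    (∀ i j, i ≠ j → Ideal.span (Set.range (g i)) ≠ Ideal.span (Set.range (g j))) →
    (∀ j, ∃ (L : Type) (_ : Field L) (_ : NumberField L) (_ : Algebra K L) (ψ : A →ₐ[K] L),
        Function.Surjective ψ ∧ RingHom.ker ψ = Ideal.span (Set.range (g j)) ∧
          Wide K (fun i => ψ (f i))) →
    (∀ j, F j ≠ ⊥) →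
    (∀ j i, ∀ a ∈ F j, y j i * a ∈ (Ideal.span (Set.range fun l => π (g j l))).radical) →
    ∀ (S : Finset ℕ) (κ : ℝ), 0 < κ → ∃ C : ℝ,
      ∀ (M : Type) [Field M] [NumberField M] [Algebra K M] (φ : A →ₐ[K] M)
        (P : ℙ K (Fin m → K)), P ∉ E → Function.Surjective φ →
        RingHom.ker φ = Ideal.span {mem f P.rep} →
        (∀ j, RingHom.ker φ ≠ Ideal.span (Set.range (g j))) →
        ∀ (L : Type) [Field L] [NumberField L] [Algebra K L] [Algebra M L] [IsScalarTower K M L]
          (φ' : A' →ₐ[K] L), (∀ a, φ' (π a) = algebraMap M L (φ a)) →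
          ∃ W : Finset (HeightOneSpectrum (𝓞 L)),
            (∀ w ∈ W, ∃ j, (∀ l, w.valuation L (φ' (π (g j l))) < 1) ∧ NearC S (y j) φ' w) ∧
            (∑ j, (finrank K (A ⧸ Ideal.span (Set.range (g j))) : ℝ) - κ) * finrank M L *
                Height.logHeight P.rep ≤
              ∑ w ∈ W, lN w + (∑ j, (finrank K (A' ⧸ F j) : ℝ)) / finrank K[X] A' *
                Height.logHeight₁ (φ' (algebraMap K[X] A' X)) +
              (Real.log |(discr L : ℝ)| - finrank M L * Real.log |(discr M : ℝ)|) +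
              C * finrank ℚ L

theorem cov (hK : StmKeyB) {K A : Type} [Field K] [NumberField K] [CommRing A] [IsDomain A]
    [Algebra K A] [Algebra K[X] A] [IsScalarTower K K[X] A] [Module.Finite K[X] A]
    [FaithfulSMul K[X] A] {m : ℕ} (f : Fin m → A) (Q : MvPolynomial (Fin m) K)
    (hQ : ∀ c c' : Fin m → K, MvPolynomial.eval c Q ≠ 0 →
      Ideal.span {mem f c} = Ideal.span {mem f c'} → ∃ l : K, l ≠ 0 ∧ c' = l • c)
    (E : Set (ℙ K (Fin m → K))) (hE : ∀ P, P ∉ E → MvPolynomial.eval P.rep Q ≠ 0)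
    (ht : ∀ (q : ℕ) (u : Fin q → ℕ) (g : ∀ j, Fin (u j) → A),
      (∀ j, (Ideal.span (Set.range (g j))).IsMaximal) →
      (∀ i j, i ≠ j → Ideal.span (Set.range (g i)) ≠ Ideal.span (Set.range (g j))) →
      (∀ j, ∃ (L : Type) (_ : Field L) (_ : NumberField L) (_ : Algebra K L) (ψ : A →ₐ[K] L),
        Function.Surjective ψ ∧ RingHom.ker ψ = Ideal.span (Set.range (g j)) ∧
          Wide K (fun i => ψ (f i))) →
      ∀ (S : Finset ℕ) (κ : ℝ), 0 < κ → ∃ C : ℝ,
        ∀ (M : Type) [Field M] [NumberField M] [Algebra K M] (φ : A →ₐ[K] M)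
          (P : ℙ K (Fin m → K)), P ∉ E → Function.Surjective φ →
          RingHom.ker φ = Ideal.span {mem f P.rep} →
          (∀ j, RingHom.ker φ ≠ Ideal.span (Set.range (g j))) →
          ∃ W : Finset (HeightOneSpectrum (𝓞 M)), (∀ w ∈ W, ∃ j, NearC S (g j) φ w) ∧
            (∑ j, (finrank K (A ⧸ Ideal.span (Set.range (g j))) : ℝ) - κ) *
              Height.logHeight P.rep ≤ ∑ w ∈ W, lN w + C)
    (hh : ∃ C : ℝ, ∀ (M : Type) [Field M] [NumberField M] [Algebra K M] (φ : A →ₐ[K] M)
        (P : ℙ K (Fin m → K)), Function.Surjective φ →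
        RingHom.ker φ = Ideal.span {mem f P.rep} →
        Height.logHeight₁ (φ (algebraMap K[X] A X)) ≤
          finrank K[X] A * Height.logHeight P.rep + C) : CovBound K A f E := by
  classical
  intro A' _ _ _ _ _ _ _ π q u v g y F hg1 hg2 hg3 hF hcov S κ hκ
  obtain ⟨N, hN⟩ : ∃ N, N = finrank K[X] A := ⟨_, rfl⟩
  set ε : ℝ := κ / (2 * (N + 1)) with hε
  have hε0 : 0 < ε := by positivity
  have hεN : ε * N ≤ κ / 2 := by
    rw [hε, div_mul_eq_mul_div, div_le_iff₀ (by positivity)]
    nlinarith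
  obtain ⟨T, Ck, G, hT, hCk, hG, hkey⟩ := hK K A A' π q u v g y F hF hcov ε hε0
  obtain ⟨C₁, hC₁⟩ := ht q u g hg1 hg2 hg3 (insert T S) (κ / 2) (by positivity)
  obtain ⟨C₂, hC₂⟩ := hh
  have hfin := Pts.pts_fin f Q hQ G hG
  obtain ⟨C₃, hC₃0, hC₃⟩ : ∃ C₃ : ℝ, 0 ≤ C₃ ∧ ∀ P ∈ {P : ℙ K (Fin m → K) |
      MvPolynomial.eval P.rep Q ≠ 0 ∧
      ∃ (M : Type) (_ : Field M) (_ : NumberField M) (_ : Algebra K M) (φ : A →ₐ[K] M),
        Function.Surjective φ ∧ RingHom.ker φ = Ideal.span {mem f P.rep} ∧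
          aeval (φ (algebraMap K[X] A X)) G = 0}, Height.logHeight P.rep ≤ C₃ := by
    obtain ⟨b, hb⟩ := (hfin.image fun P => Height.logHeight P.rep).bddAbove
    refine ⟨max b 0, le_max_right _ _, fun P hP => ?_⟩
    exact (hb (Set.mem_image_of_mem _ hP)).trans (le_max_left _ _)
  set D : ℝ := ∑ j, (finrank K (A ⧸ Ideal.span (Set.range (g j))) : ℝ) with hD
  have hD0 : 0 ≤ D := Finset.sum_nonneg fun _ _ => Nat.cast_nonneg _
  set ρ : ℝ := (∑ j, (finrank K (A' ⧸ F j) : ℝ)) / finrank K[X] A' with hρ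
  have hρ0 : 0 ≤ ρ := div_nonneg (Finset.sum_nonneg fun _ _ => Nat.cast_nonneg _)
    (Nat.cast_nonneg _)
  refine ⟨|C₁| + Ck + ε * |C₂| + D * C₃, ?_⟩
  intro M _ _ _ φ P hP hφ hker hne L _ _ _ _ _ φ' hφ'
  have hP0 : 0 ≤ Height.logHeight P.rep := Height.logHeight_nonneg _
  obtain ⟨h, hhdef⟩ : ∃ h, h = Height.logHeight P.rep := ⟨_, rfl⟩
  rw [← hhdef] at hP0 ⊢
  have hLM : (finrank M L : ℝ) ≤ finrank ℚ L := by
    have h1 := finrank_mul_finrank ℚ M L
    have h2 : 0 < finrank ℚ M := finrank_pos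
    have h3 : finrank M L ≤ finrank ℚ L := by
      rw [← h1]
      exact Nat.le_mul_of_pos_left _ h2
    exact_mod_cast h3
  have hLM0 : (0 : ℝ) ≤ finrank M L := Nat.cast_nonneg _
  have hX : φ' (algebraMap K[X] A' X) = algebraMap M L (φ (algebraMap K[X] A X)) := by
    rw [← hφ', AlgHom.commutes]
  have hdisc := Rel.disc_mono (M := M) (L := L)
  have hh0 : 0 ≤ Height.logHeight₁ (φ' (algebraMap K[X] A' X)) := Height.zero_le_logHeight₁ _
  by_cases hG0 : aeval (φ' (algebraMap K[X] A' X)) G = 0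
  · -- a bounded number of points
    have h1 : aeval (φ (algebraMap K[X] A X)) G = 0 := by
      rw [hX, aeval_algebraMap_apply] at hG0
      exact (map_eq_zero_iff _ (algebraMap M L).injective).1 hG0
    have h2 : h ≤ C₃ := by
      rw [hhdef]
      exact hC₃ P ⟨hE P hP, M, inferInstance, inferInstance, inferInstance, φ, hφ, hker, h1⟩
    refine ⟨∅, by simp, ?_⟩
    rw [Finset.sum_empty]
    have h3 : (D - κ) * finrank M L * h ≤ D * C₃ * finrank ℚ L := by
      calc (D - κ) * finrank M L * h ≤ D * finrank M L * h := by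
            have : 0 ≤ κ * finrank M L * h := by positivity
            linarith [this, (by ring : (D - κ) * finrank M L * h =
              D * finrank M L * h - κ * finrank M L * h)]
        _ = D * (finrank M L * h) := by ring
        _ ≤ D * (finrank ℚ L * C₃) :=
            mul_le_mul_of_nonneg_left (mul_le_mul hLM h2 hP0 (Nat.cast_nonneg _)) hD0
        _ = D * C₃ * finrank ℚ L := by ring
    have h4 : 0 ≤ ρ * Height.logHeight₁ (φ' (algebraMap K[X] A' X)) := mul_nonneg hρ0 hh0
    have h5 : 0 ≤ (|C₁| + Ck + ε * |C₂|) * finrank ℚ L := by positivity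
    have h6 : (|C₁| + Ck + ε * |C₂| + D * C₃) * (finrank ℚ L : ℝ) =
        (|C₁| + Ck + ε * |C₂|) * finrank ℚ L + D * C₃ * finrank ℚ L := by ring
    linarith
  · obtain ⟨W₁, hW₁, hb₁⟩ := hC₁ M φ P hP hφ hker hne
    rw [← hhdef] at hb₁
    obtain ⟨V, hV, hVb⟩ := Rel.rel (L := L) W₁
    have hpne : ∀ j, ∃ l, φ' (π (g j l)) ≠ 0 := by
      intro j
      by_contra hc
      push Not at hc
      apply hne j
      refine ((hg1 j).eq_of_le (RingHom.ker_ne_top φ) ?_).symm
      rw [Ideal.span_le]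
      rintro _ ⟨i, rfl⟩
      have h1 := hc i
      rw [hφ'] at h1
      exact (map_eq_zero_iff _ (algebraMap M L).injective).1 h1
    have hfin' : {w : HeightOneSpectrum (𝓞 L) | (∀ p ∈ S.filter (· ≠ 0), (p : 𝓞 L) ∉ w.asIdeal) ∧
        w.valuation L (φ' (algebraMap K[X] A' X)) ≤ 1 ∧
        ∃ j, (∀ l, w.valuation L (φ' (π (g j l))) < 1) ∧
          ∀ i, w.valuation L (φ' (y j i)) < 1}.Finite := by
      choose l hl using hpne
      refine (Set.finite_iUnion fun j =>
        Pool.Agent.N297.CV.MainC.val_fin (hl j)).subset ?_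
      rintro w ⟨-, -, j, hw, -⟩
      exact Set.mem_iUnion.2 ⟨j, hw (l j)⟩
    have hk := hkey (S.filter (· ≠ 0)) L φ' hG0 hpne V hfin'.toFinset ?_ ?_
    · refine ⟨hfin'.toFinset, ?_, ?_⟩
      · intro w hw
        rw [Set.Finite.mem_toFinset] at hw
        obtain ⟨hw1, hw2, j, hw3, hw4⟩ := hw
        exact ⟨j, hw3, fun p hp hp0 => hw1 p (Finset.mem_filter.2 ⟨hp, hp0⟩), hw2, hw4⟩
      · have e1 : Height.logHeight₁ (φ' (algebraMap K[X] A' X)) =
            finrank M L * Height.logHeight₁ (φ (algebraMap K[X] A X)) := by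
          rw [hX]
          exact Pool.Agent.N265.CV.ht1_ext M L _
        have h1 := hC₂ M φ P hφ hker
        rw [← hhdef, ← hN] at h1
        have h2 : ε * Height.logHeight₁ (φ' (algebraMap K[X] A' X)) ≤
            κ / 2 * finrank M L * h + ε * |C₂| * finrank ℚ L := by
          rw [e1]
          calc ε * (finrank M L * Height.logHeight₁ (φ (algebraMap K[X] A X))) ≤
                ε * (finrank M L * (N * h + |C₂|)) := by
                refine mul_le_mul_of_nonneg_left (mul_le_mul_of_nonneg_left ?_ hLM0) hε0.le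
                exact h1.trans (by linarith [le_abs_self C₂])
            _ = ε * N * (finrank M L * h) + ε * |C₂| * finrank M L := by ring
            _ ≤ κ / 2 * (finrank M L * h) + ε * |C₂| * finrank ℚ L := by
                refine add_le_add (mul_le_mul_of_nonneg_right hεN (by positivity))
                  (mul_le_mul_of_nonneg_left hLM (by positivity))
            _ = _ := by ring
        have h3 : (finrank M L : ℝ) * ((D - κ / 2) * h) ≤
            finrank M L * ∑ w ∈ W₁, lN w + finrank M L * C₁ := by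
          have := mul_le_mul_of_nonneg_left hb₁ hLM0
          linarith [this, (by ring : (finrank M L : ℝ) * (∑ w ∈ W₁, lN w + C₁) =
            finrank M L * ∑ w ∈ W₁, lN w + finrank M L * C₁)]
        have h4 : (finrank M L : ℝ) * C₁ ≤ |C₁| * finrank ℚ L := by
          calc (finrank M L : ℝ) * C₁ ≤ finrank M L * |C₁| :=
                mul_le_mul_of_nonneg_left (le_abs_self _) hLM0
            _ ≤ finrank ℚ L * |C₁| := mul_le_mul_of_nonneg_right hLM (abs_nonneg _)
            _ = _ := by ring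
        have h5 : 0 ≤ D * C₃ * finrank ℚ L := by positivity
        have h6 : (D - κ) * finrank M L * h =
            finrank M L * ((D - κ / 2) * h) - κ / 2 * finrank M L * h := by ring
        have h7 : (|C₁| + Ck + ε * |C₂| + D * C₃) * (finrank ℚ L : ℝ) =
            |C₁| * finrank ℚ L + finrank ℚ L * Ck + ε * |C₂| * finrank ℚ L +
              D * C₃ * finrank ℚ L := by ring
        have h8 : (ρ + ε) * Height.logHeight₁ (φ' (algebraMap K[X] A' X)) =
            ρ * Height.logHeight₁ (φ' (algebraMap K[X] A' X)) +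
              ε * Height.logHeight₁ (φ' (algebraMap K[X] A' X)) := by ring
        rw [h8] at hk
        linarith
    · intro w hw
      obtain ⟨w₁, hw₁, hlies⟩ := (hV w).1 hw
      obtain ⟨j, hn1, hn2, hn3⟩ := hW₁ w₁ hw₁
      refine ⟨?_, ?_, ?_, j, ?_⟩
      · intro hc
        exact hn1 T (Finset.mem_insert_self _ _) hT ((Small.mem_below hlies).1 hc)
      · intro p hp hc
        rw [Finset.mem_filter] at hp
        exact hn1 p (Finset.mem_insert_of_mem hp.1) hp.2 ((Small.mem_below hlies).1 hc)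
      · rw [hX]
        exact val_le hlies hn2
      · intro l
        rw [hφ']
        exact val_lt hlies (hn3 l)
    · intro w hw1 hw2 hw3
      rw [Set.Finite.mem_toFinset]
      exact ⟨hw1, hw2, hw3⟩

end Pool.Agent.H65CV.Cov
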