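import Mathlib
import Pool.Agent.H65CV.Cov
import Pool.Agent.H65CV.MainR
import Pool.Agent.N776.CV.VnC

/-!
# The main theorem with covers, and the linear systems `V_n`
-/

set_option autoImplicit false

namespace Pool.Agent.H65CV.All

open NumberField IsDedekindDomain Module Polynomial Pool.Agent.N753.DR
open scoped LinearAlgebra.Projectivization

/-- a sparse set -/
def SparseE {K : Type} [Field K] [NumberField K] {m : ℕ} (E : Set (ℙ K (Fin m → K))) : Prop :=
  ∃ C : ℝ, ∀ U : ℝ, 0 ≤ U → {P : ℙ K (Fin m → K) | P ∈ E ∧ Height.logHeight P.rep ≤ U}.Finite ∧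
      ({P : ℙ K (Fin m → K) | P ∈ E ∧ Height.logHeight P.rep ≤ U}.ncard : ℝ) ≤
        C * Real.exp (m * U - √U)

/-- the main theorem with covers -/
theorem all (hK : StmKeyB) : ∃ e : ℕ → ℝ, (∀ c : ℝ, 1 / (8 * (Real.log 2) ^ 2) < c →
      ∀ᶠ n : ℕ in Filter.atTop, e n ≤ c * (Real.log n) ^ 2) ∧ (∀ n, 0 ≤ e n) ∧
  ∀ (K A : Type) [Field K] [NumberField K] [CommRing A] [IsDomain A]
    [Algebra K A] [Algebra K[X] A] [IsScalarTower K K[X] A] [Module.Finite K[X] A]
    [FaithfulSMul K[X] A], IsDomain (TensorProduct K (AlgebraicClosure K) A) →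
    ∀ (m : ℕ), 1 ≤ m → ∀ (f : Fin m → A), LinearIndependent K f →
  ∃ (r : ℕ) (E : Set (ℙ K (Fin m → K))),
    (∃ c : Fin m → K, mem f c ≠ 0 ∧ finrank K (A ⧸ Ideal.span {mem f c}) = r) ∧
    (∀ P, P ∉ E → finrank K (A ⧸ Ideal.span {mem f P.rep}) = r) ∧
    SparseE E ∧
    (∀ (q : ℕ) (u : Fin q → ℕ) (g : ∀ j, Fin (u j) → A),
      (∀ j, (Ideal.span (Set.range (g j))).IsMaximal) →
      (∀ i j, i ≠ j → Ideal.span (Set.range (g i)) ≠ Ideal.span (Set.range (g j))) →
      (∀ j, ∃ (L : Type) (_ : Field L) (_ : NumberField L) (_ : Algebra K L) (ψ : A →ₐ[K] L),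
        Function.Surjective ψ ∧ RingHom.ker ψ = Ideal.span (Set.range (g j)) ∧
          Wide K (fun i => ψ (f i))) →
      ∀ (S : Finset ℕ) (κ : ℝ), 0 < κ → ∃ C : ℝ,
        ∀ (M : Type) [Field M] [NumberField M] [Algebra K M] (φ : A →ₐ[K] M)
          (P : ℙ K (Fin m → K)), P ∉ E → Function.Surjective φ →
          RingHom.ker φ = Ideal.span {mem f P.rep} →
          (∀ j, RingHom.ker φ ≠ Ideal.span (Set.range (g j))) →
          ∃ W : Finset (HeightOneSpectrum (𝓞 M)), (∀ w ∈ W, ∃ j, NearC S (g j) φ w) ∧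
            (∑ j, (finrank K (A ⧸ Ideal.span (Set.range (g j))) : ℝ) - κ) *
              Height.logHeight P.rep ≤ ∑ w ∈ W, lN w + C) ∧
    (∀ G : ℝ, 0 ≤ G → G * e r + 2 * finrank K[X] A < m → ∃ C : ℝ,
      ∀ (M : Type) [Field M] [NumberField M] [Algebra K M] (φ : A →ₐ[K] M)
        (P : ℙ K (Fin m → K)), P ∉ E → Function.Surjective φ →
        RingHom.ker φ = Ideal.span {mem f P.rep} →
        G * Height.logHeight P.rep ≤ Real.log |(discr M : ℝ)| + C) ∧
    (∃ C : ℝ, ∀ (M : Type) [Field M] [NumberField M] [Algebra K M] (φ : A →ₐ[K] M)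
        (P : ℙ K (Fin m → K)), Function.Surjective φ →
        RingHom.ker φ = Ideal.span {mem f P.rep} →
        Height.logHeight₁ (φ (algebraMap K[X] A X)) ≤
          finrank K[X] A * Height.logHeight P.rep + C) ∧
    Cov.CovBound K A f E := by
  obtain ⟨e, he1, he2, h⟩ := MainR.mainR
  refine ⟨e, he1, he2, ?_⟩
  intro K A _ _ _ _ _ _ _ _ _ hA m hm f hf
  obtain ⟨r, E, Q, hQ, hEQ, hEr, hr, hE, ht, hd, hh⟩ := h K A hA m hm f hf
  exact ⟨r, E, hr, hEr, hE, ht, hd, hh, Cov.cov hK f Q hQ E hEQ ht hh⟩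

/-- the residue field of a closed point -/
theorem residue (K : Type) {A : Type} [Field K] [NumberField K] [CommRing A] [Algebra K A]
    [Algebra K[X] A] [IsScalarTower K K[X] A] [Module.Finite K[X] A] (I : Ideal A)
    (hI : I.IsMaximal) :
    ∃ (L : Type) (_ : Field L) (_ : NumberField L) (_ : Algebra K L) (ψ : A →ₐ[K] L),
      Function.Surjective ψ ∧ RingHom.ker ψ = I ∧ finrank K L = finrank K (A ⧸ I) := by
  letI : Field (A ⧸ I) := Ideal.Quotient.field I
  have h1 : Algebra.FiniteType K A :=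
    Algebra.FiniteType.trans (S := K[X]) inferInstance inferInstance
  have h2 : Algebra.FiniteType K (A ⧸ I) :=
    h1.of_surjective (Ideal.Quotient.mkₐ K I) Ideal.Quotient.mk_surjective
  have h3 : Module.Finite K (A ⧸ I) := finite_of_finite_type_of_isJacobsonRing K (A ⧸ I)
  have h4 : CharZero (A ⧸ I) := charZero_of_injective_algebraMap
    (algebraMap K (A ⧸ I)).injective
  have h5 : NumberField (A ⧸ I) := NumberField.of_module_finite K _
  exact ⟨A ⧸ I, inferInstance, h5, inferInstance, Ideal.Quotient.mkₐ K I,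
    Ideal.Quotient.mk_surjective, Ideal.Quotient.mkₐ_ker K I, rfl⟩

/-- the dimension of `V_n` is large compared with `e` -/
theorem large {e : ℕ → ℝ} (he1 : ∀ c : ℝ, 1 / (8 * (Real.log 2) ^ 2) < c →
      ∀ᶠ n : ℕ in Filter.atTop, e n ≤ c * (Real.log n) ^ 2) (he2 : ∀ n, 0 ≤ e n) {G : ℝ}
    (hG : 0 ≤ G) (N c₀ : ℕ) (hN : 1 ≤ N) :
    ∃ n₀ : ℕ, 1 ≤ n₀ ∧ ∀ n, n₀ ≤ n → ∀ r, r ≤ N * n + c₀ →
      G * e r + 2 * N < (N * (n + 1) : ℕ) := by
  have hlog2 : 0.6931471803 < Real.log 2 := Real.log_two_gt_d9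
  have hc : 1 / (8 * (Real.log 2) ^ 2) < 1 := by
    rw [div_lt_one (by positivity)]
    nlinarith
  obtain ⟨R₀, hR₀⟩ := Filter.eventually_atTop.1 (he1 1 hc)
  set B₀ : ℝ := ∑ r ∈ Finset.range R₀, e r with hB₀
  have hB₀0 : 0 ≤ B₀ := Finset.sum_nonneg fun r _ => he2 r
  have hbd : ∀ r y : ℕ, r ≤ y → e r ≤ B₀ + 16 * √(y + 1) := by
    intro r y hry
    have hs : 0 ≤ √((y : ℝ) + 1) := Real.sqrt_nonneg _
    by_cases hr : r < R₀
    · have := Finset.single_le_sum (f := e) (fun i _ => he2 i) (Finset.mem_range.2 hr)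
      linarith
    · rw [not_lt] at hr
      have h1 := hR₀ r hr
      rw [one_mul] at h1
      have h2 : (Real.log r) ^ 2 ≤ 16 * √((y : ℝ) + 1) := by
        have h3 : 0 ≤ Real.log r := Real.log_natCast_nonneg r
        have h4 : Real.log r ≤ 4 * ((y : ℝ) + 1) ^ (1 / 4 : ℝ) := by
          rcases Nat.eq_zero_or_pos r with rfl | hr0
          · rw [Nat.cast_zero, Real.log_zero]
            positivity
          · have h5 := Real.log_le_rpow_div (x := (y : ℝ) + 1) (by positivity)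
              (ε := 1 / 4) (by norm_num)
            have h6 : Real.log r ≤ Real.log ((y : ℝ) + 1) := by
              apply Real.log_le_log (by exact_mod_cast hr0)
              have : (r : ℝ) ≤ y := by exact_mod_cast hry
              linarith
            refine (h6.trans h5).trans (le_of_eq ?_)
            ring
        calc (Real.log r) ^ 2 ≤ (4 * ((y : ℝ) + 1) ^ (1 / 4 : ℝ)) ^ 2 :=
              pow_le_pow_left₀ h3 h4 2
          _ = 16 * (((y : ℝ) + 1) ^ (1 / 4 : ℝ)) ^ 2 := by ring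
          _ = 16 * √((y : ℝ) + 1) := by
              rw [← Real.rpow_natCast, ← Real.rpow_mul (by positivity), Real.sqrt_eq_rpow]
              norm_num
      linarith
  refine ⟨⌈2 * (G * B₀ + (c₀ + 1) / 2 + 128 * G ^ 2 + N)⌉₊ + 1, by omega, ?_⟩
  intro n hn r hr
  have h1 := hbd r (N * n + c₀) hr
  have h2 : 2 * (G * B₀ + (c₀ + 1) / 2 + 128 * G ^ 2 + N) < (n : ℝ) := by
    have h3 := Nat.le_ceil (2 * (G * B₀ + (c₀ + 1) / 2 + 128 * G ^ 2 + N))
    have h4 : ((⌈2 * (G * B₀ + (c₀ + 1) / 2 + 128 * G ^ 2 + N)⌉₊ : ℕ) : ℝ) + 1 ≤ n := by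
      exact_mod_cast hn
    linarith
  have hy : (0 : ℝ) ≤ ((N * n + c₀ : ℕ) : ℝ) + 1 := by positivity
  set s := √(((N * n + c₀ : ℕ) : ℝ) + 1) with hs
  have hs2 : s ^ 2 = ((N * n + c₀ : ℕ) : ℝ) + 1 := Real.sq_sqrt hy
  have h5 : 16 * G * s ≤ s ^ 2 / 2 + 128 * G ^ 2 := by nlinarith [sq_nonneg (s - 16 * G)]
  have hN1 : (1 : ℝ) ≤ N := by exact_mod_cast hN
  have h6 : (n : ℝ) ≤ N * n := by
    have : (0 : ℝ) ≤ n := Nat.cast_nonneg _
    nlinarith
  calc G * e r + 2 * N ≤ G * (B₀ + 16 * s) + 2 * N := by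
        have := mul_le_mul_of_nonneg_left h1 hG
        linarith
    _ = G * B₀ + 16 * G * s + 2 * N := by ring
    _ ≤ G * B₀ + ((((N * n + c₀ : ℕ) : ℝ) + 1) / 2 + 128 * G ^ 2) + 2 * N := by
        rw [← hs2]
        linarith
    _ < (N * (n + 1) : ℕ) := by
        push_cast
        linarith

end Pool.Agent.H65CV.All
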