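import Mathlib
import Pool.Agent.H65CV.All

/-!
# The linear systems `V_n`: the inequality with discriminant
-/

set_option autoImplicit false

namespace Pool.Agent.H65CV.All

open NumberField IsDedekindDomain Module Polynomial Pool.Agent.N753.DR
open scoped LinearAlgebra.Projectivization

/-- the systems `V_n` -/
theorem vn {e : ℕ → ℝ} (he1 : ∀ c : ℝ, 1 / (8 * (Real.log 2) ^ 2) < c →
      ∀ᶠ n : ℕ in Filter.atTop, e n ≤ c * (Real.log n) ^ 2) (he2 : ∀ n, 0 ≤ e n)
    (K A : Type) [Field K] [NumberField K] [CommRing A] [IsDomain A]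
    [Algebra K A] [Algebra K[X] A] [IsScalarTower K K[X] A] [Module.Finite K[X] A]
    [FaithfulSMul K[X] A]
    (h : ∀ (m : ℕ), 1 ≤ m → ∀ (f : Fin m → A), LinearIndependent K f →
      ∃ (r : ℕ) (E : Set (ℙ K (Fin m → K))),
        (∃ c : Fin m → K, mem f c ≠ 0 ∧ finrank K (A ⧸ Ideal.span {mem f c}) = r) ∧
        SparseE E ∧
        (∀ (q : ℕ) (u : Fin q → ℕ) (g : ∀ j, Fin (u j) → A),
          (∀ j, (Ideal.span (Set.range (g j))).IsMaximal) →
          (∀ i j, i ≠ j → Ideal.span (Set.range (g i)) ≠ Ideal.span (Set.range (g j))) →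
          (∀ j, ∃ (L : Type) (_ : Field L) (_ : NumberField L) (_ : Algebra K L)
            (ψ : A →ₐ[K] L), Function.Surjective ψ ∧
              RingHom.ker ψ = Ideal.span (Set.range (g j)) ∧ Wide K (fun i => ψ (f i))) →
          ∀ (S : Finset ℕ) (κ : ℝ), 0 < κ → ∃ C : ℝ,
            ∀ (M : Type) [Field M] [NumberField M] [Algebra K M] (φ : A →ₐ[K] M)
              (P : ℙ K (Fin m → K)), P ∉ E → Function.Surjective φ →
              RingHom.ker φ = Ideal.span {mem f P.rep} →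
              (∀ j, RingHom.ker φ ≠ Ideal.span (Set.range (g j))) →
              ∃ W : Finset (HeightOneSpectrum (𝓞 M)), (∀ w ∈ W, ∃ j, NearC S (g j) φ w) ∧
                (∑ j, (finrank K (A ⧸ Ideal.span (Set.range (g j))) : ℝ) - κ) *
                  Height.logHeight P.rep ≤ ∑ w ∈ W, lN w + C) ∧
        (∀ G : ℝ, 0 ≤ G → G * e r + 2 * finrank K[X] A < m → ∃ C : ℝ,
          ∀ (M : Type) [Field M] [NumberField M] [Algebra K M] (φ : A →ₐ[K] M)
            (P : ℙ K (Fin m → K)), P ∉ E → Function.Surjective φ →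
            RingHom.ker φ = Ideal.span {mem f P.rep} →
            G * Height.logHeight P.rep ≤ Real.log |(discr M : ℝ)| + C) ∧
        (∃ C : ℝ, ∀ (M : Type) [Field M] [NumberField M] [Algebra K M] (φ : A →ₐ[K] M)
            (P : ℙ K (Fin m → K)), Function.Surjective φ →
            RingHom.ker φ = Ideal.span {mem f P.rep} →
            Height.logHeight₁ (φ (algebraMap K[X] A X)) ≤
              finrank K[X] A * Height.logHeight P.rep + C) ∧
        Cov.CovBound K A f E)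
    (N : ℕ) (b : Basis (Fin N) K[X] A) (hb : ∃ i, b i = 1) (G : ℝ) (hG : 0 ≤ G) :
    ∃ n₀ : ℕ, ∀ n, n₀ ≤ n → ∃ E : Set (ℙ K (Fin (N * (n + 1)) → K)), SparseE E ∧
      (∀ (q : ℕ) (u : Fin q → ℕ) (g : ∀ j, Fin (u j) → A),
        (∀ j, (Ideal.span (Set.range (g j))).IsMaximal) →
        (∀ i j, i ≠ j → Ideal.span (Set.range (g i)) ≠ Ideal.span (Set.range (g j))) →
        (∀ j, finrank K (A ⧸ Ideal.span (Set.range (g j))) ≤ 2 * n + 1) →
        ∀ (S : Finset ℕ) (κ : ℝ), 0 < κ → ∃ C : ℝ,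
          ∀ (M : Type) [Field M] [NumberField M] [Algebra K M] (φ : A →ₐ[K] M)
            (P : ℙ K (Fin (N * (n + 1)) → K)), P ∉ E → Function.Surjective φ →
            RingHom.ker φ = Ideal.span {mem (Vn (K := K) b n) P.rep} →
            (∀ j, RingHom.ker φ ≠ Ideal.span (Set.range (g j))) →
            ∃ W : Finset (HeightOneSpectrum (𝓞 M)), (∀ w ∈ W, ∃ j, NearC S (g j) φ w) ∧
              (∑ j, (finrank K (A ⧸ Ideal.span (Set.range (g j))) : ℝ) + G - κ) *
                Height.logHeight P.rep ≤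
                  ∑ w ∈ W, lN w + Real.log |(discr M : ℝ)| + C) ∧
      ∀ (A' : Type) [CommRing A'] [IsDedekindDomain A'] [Algebra K A'] [Algebra K[X] A']
        [IsScalarTower K K[X] A'] [Module.Finite K[X] A'] [FaithfulSMul K[X] A']
        (π : A →ₐ[K[X]] A') (q : ℕ) (u v : Fin q → ℕ) (g : ∀ j, Fin (u j) → A)
        (y : ∀ j, Fin (v j) → A') (F : Fin q → Ideal A'),
        (∀ j, (Ideal.span (Set.range (g j))).IsMaximal) →
        (∀ i j, i ≠ j → Ideal.span (Set.range (g i)) ≠ Ideal.span (Set.range (g j))) →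
        (∀ j, finrank K (A ⧸ Ideal.span (Set.range (g j))) ≤ 2 * n + 1) →
        (∀ j, F j ≠ ⊥) →
        (∀ j i, ∀ a ∈ F j, y j i * a ∈ (Ideal.span (Set.range fun l => π (g j l))).radical) →
        ∀ (S : Finset ℕ) (κ : ℝ), 0 < κ → ∃ C : ℝ,
          ∀ (M : Type) [Field M] [NumberField M] [Algebra K M] (φ : A →ₐ[K] M)
            (P : ℙ K (Fin (N * (n + 1)) → K)), P ∉ E → Function.Surjective φ →
            RingHom.ker φ = Ideal.span {mem (Vn (K := K) b n) P.rep} →
            (∀ j, RingHom.ker φ ≠ Ideal.span (Set.range (g j))) →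
            ∀ (L : Type) [Field L] [NumberField L] [Algebra K L] [Algebra M L]
              [IsScalarTower K M L] (φ' : A' →ₐ[K] L), (∀ a, φ' (π a) = algebraMap M L (φ a)) →
              ∃ W : Finset (HeightOneSpectrum (𝓞 L)),
                (∀ w ∈ W, ∃ j, (∀ l, w.valuation L (φ' (π (g j l))) < 1) ∧ NearC S (y j) φ' w) ∧
                (∑ j, ((finrank K (A ⧸ Ideal.span (Set.range (g j))) : ℝ) -
                    N * finrank K (A' ⧸ F j) / finrank K[X] A') + G - κ) * finrank M L *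
                    Height.logHeight P.rep ≤
                  ∑ w ∈ W, lN w + Real.log |(discr L : ℝ)| + C * finrank ℚ L := by
  classical
  obtain ⟨c₀, hc₀⟩ := N776.CV.tVnC K A N b hb
  have hN1 : 1 ≤ N := by
    obtain ⟨i, -⟩ := hb
    exact i.pos
  have hNrank : finrank K[X] A = N := by
    rw [finrank_eq_card_basis b, Fintype.card_fin]
  obtain ⟨n₀, hn₀1, hn₀⟩ := large he1 he2 hG N c₀ hN1
  refine ⟨n₀, fun n hn => ?_⟩
  obtain ⟨hli, hwide, hrk⟩ := hc₀ n (hn₀1.trans hn)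
  have hm : 1 ≤ N * (n + 1) := Nat.one_le_iff_ne_zero.2 (by positivity)
  obtain ⟨r, E, ⟨c, hc, hcr⟩, hE, htr, hd, ⟨C₂, hC₂⟩, hcov⟩ := h _ hm _ hli
  have hr : r ≤ N * n + c₀ := by
    rw [← hcr]
    exact hrk c hc
  have hlarge : G * e r + 2 * finrank K[X] A < (N * (n + 1) : ℕ) := by
    rw [hNrank]
    exact hn₀ n hn r hr
  obtain ⟨Cd, hCd⟩ := hd G hG hlarge
  have hw : ∀ (q : ℕ) (u : Fin q → ℕ) (g : ∀ j, Fin (u j) → A),
      (∀ j, (Ideal.span (Set.range (g j))).IsMaximal) →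
      (∀ j, finrank K (A ⧸ Ideal.span (Set.range (g j))) ≤ 2 * n + 1) →
      ∀ j, ∃ (L : Type) (_ : Field L) (_ : NumberField L) (_ : Algebra K L)
      (ψ : A →ₐ[K] L), Function.Surjective ψ ∧ RingHom.ker ψ = Ideal.span (Set.range (g j)) ∧
        Wide K (fun i => ψ (Vn (K := K) b n i)) := by
    intro q u g hg1 hg3 j
    obtain ⟨L, i1, i2, i3, ψ, hψ1, hψ2, hψ3⟩ := residue K _ (hg1 j)
    refine ⟨L, i1, i2, i3, ψ, hψ1, hψ2, hwide L ψ hψ1 ?_⟩
    rw [hψ3]
    exact hg3 j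
  refine ⟨E, hE, ?_, ?_⟩
  · intro q u g hg1 hg2 hg3 S κ hκ
    obtain ⟨C₁, hC₁⟩ := htr q u g hg1 hg2 (hw q u g hg1 hg3) S κ hκ
    refine ⟨C₁ + Cd, ?_⟩
    intro M _ _ _ φ P hP hφ hker hne
    obtain ⟨W, hW, hb1⟩ := hC₁ M φ P hP hφ hker hne
    refine ⟨W, hW, ?_⟩
    have h2 := hCd M φ P hP hφ hker
    have h3 : (∑ j, (finrank K (A ⧸ Ideal.span (Set.range (g j))) : ℝ) + G - κ) *
        Height.logHeight P.rep = (∑ j, (finrank K (A ⧸ Ideal.span (Set.range (g j))) : ℝ) - κ) *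
        Height.logHeight P.rep + G * Height.logHeight P.rep := by ring
    rw [h3]
    linarith
  intro A' _ _ _ _ _ _ _ π q u v g y F hg1 hg2 hg3 hF hcv S κ hκ
  obtain ⟨C₁, hC₁⟩ := hcov A' π q u v g y F hg1 hg2 (hw q u g hg1 hg3) hF hcv S κ hκ
  set D : ℝ := ∑ j, (finrank K (A ⧸ Ideal.span (Set.range (g j))) : ℝ) with hD
  set ρ : ℝ := (∑ j, (finrank K (A' ⧸ F j) : ℝ)) / finrank K[X] A' with hρ
  have hρ0 : 0 ≤ ρ := div_nonneg (Finset.sum_nonneg fun _ _ => Nat.cast_nonneg _)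
    (Nat.cast_nonneg _)
  have hsum : ∑ j, ((finrank K (A ⧸ Ideal.span (Set.range (g j))) : ℝ) -
      N * finrank K (A' ⧸ F j) / finrank K[X] A') = D - N * ρ := by
    rw [Finset.sum_sub_distrib, hρ, ← Finset.sum_div, ← Finset.mul_sum, mul_div_assoc]
  refine ⟨C₁ + |Cd| + ρ * |C₂|, ?_⟩
  intro M _ _ _ φ P hP hφ hker hne L _ _ _ _ _ φ' hφ'
  obtain ⟨W, hW, hb1⟩ := hC₁ M φ P hP hφ hker hne L φ' hφ'
  refine ⟨W, hW, ?_⟩
  have h2 := hCd M φ P hP hφ hker
  have h3 := hC₂ M φ P hφ hker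
  rw [hNrank] at h3
  have hP0 : 0 ≤ Height.logHeight P.rep := Height.logHeight_nonneg _
  obtain ⟨t, ht⟩ : ∃ t, t = Height.logHeight P.rep := ⟨_, rfl⟩
  rw [← ht] at hb1 h2 h3 hP0 ⊢
  rw [hsum]
  have hLM : (finrank M L : ℝ) ≤ finrank ℚ L := by
    have h1 := finrank_mul_finrank ℚ M L
    have h2 : 0 < finrank ℚ M := finrank_pos
    have h3 : finrank M L ≤ finrank ℚ L := by
      rw [← h1]
      exact Nat.le_mul_of_pos_left _ h2
    exact_mod_cast h3
  have hLM0 : (0 : ℝ) ≤ finrank M L := Nat.cast_nonneg _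
  have hX : φ' (algebraMap K[X] A' X) = algebraMap M L (φ (algebraMap K[X] A X)) := by
    rw [← hφ', AlgHom.commutes]
  have e1 : Height.logHeight₁ (φ' (algebraMap K[X] A' X)) =
      finrank M L * Height.logHeight₁ (φ (algebraMap K[X] A X)) := by
    rw [hX]
    exact Pool.Agent.N265.CV.ht1_ext M L _
  have h4 : ρ * Height.logHeight₁ (φ' (algebraMap K[X] A' X)) ≤
      N * ρ * finrank M L * t + ρ * |C₂| * finrank ℚ L := by
    rw [e1]
    calc ρ * (finrank M L * Height.logHeight₁ (φ (algebraMap K[X] A X))) ≤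
          ρ * (finrank M L * (N * t + |C₂|)) := by
          refine mul_le_mul_of_nonneg_left (mul_le_mul_of_nonneg_left ?_ hLM0) hρ0
          exact h3.trans (by linarith [le_abs_self C₂])
      _ = N * ρ * finrank M L * t + ρ * |C₂| * finrank M L := by ring
      _ ≤ _ := by
          have := mul_le_mul_of_nonneg_left hLM (by positivity : 0 ≤ ρ * |C₂|)
          linarith
  have h5 : finrank M L * (G * t) ≤ finrank M L * Real.log |(discr M : ℝ)| +
      |Cd| * finrank ℚ L := by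
    have h6 := mul_le_mul_of_nonneg_left h2 hLM0
    have h7 : (finrank M L : ℝ) * Cd ≤ |Cd| * finrank ℚ L := by
      calc (finrank M L : ℝ) * Cd ≤ finrank M L * |Cd| :=
            mul_le_mul_of_nonneg_left (le_abs_self _) hLM0
        _ ≤ finrank ℚ L * |Cd| := mul_le_mul_of_nonneg_right hLM (abs_nonneg _)
        _ = _ := by ring
    linarith [h6, (by ring : (finrank M L : ℝ) * (Real.log |(discr M : ℝ)| + Cd) =
      finrank M L * Real.log |(discr M : ℝ)| + finrank M L * Cd)]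
  have h8 : (D - N * ρ + G - κ) * finrank M L * t = (D - κ) * finrank M L * t -
      N * ρ * finrank M L * t + finrank M L * (G * t) := by ring
  have h9 : (C₁ + |Cd| + ρ * |C₂|) * (finrank ℚ L : ℝ) =
      C₁ * finrank ℚ L + |Cd| * finrank ℚ L + ρ * |C₂| * finrank ℚ L := by ring
  rw [h8, h9]
  linarith

end Pool.Agent.H65CV.All
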